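import Pool.Graph.R_seed8.H345R2.A3.Gap
import Pool.Graph.R_seed8.H452R4.LI.GI

/-! Exponential sums over the ordinates of zeros: Gaussian cut-off and the sum over prime powers. -/

set_option autoImplicit false

open Finset ArithmeticFunction MeasureTheory Set

namespace Pool.Agent.H8.TT

open H370
open Pool.Agent.H345R2.AP (SS SS_nonneg tail_pt rpow_half_split recip_sum)

lemma exp_le_sq (x : ℝ) : Real.exp (-x ^ 2 / 2) ≤ 4 / (1 + x ^ 2) ^ 2 := by
  have h := Real.quadratic_le_exp_of_nonneg (show 0 ≤ x ^ 2 / 4 by positivity)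
  have h1 : 1 + x ^ 2 ≤ 2 * Real.exp (x ^ 2 / 4) := by nlinarith [sq_nonneg (x ^ 2 / 4 - 1)]
  have h2 : (1 + x ^ 2) ^ 2 ≤ 4 * Real.exp (x ^ 2 / 2) := by
    have e : Real.exp (x ^ 2 / 2) = Real.exp (x ^ 2 / 4) ^ 2 := by
      rw [← Real.exp_nat_mul]; congr 1; push_cast; ring
    rw [e]
    have := pow_le_pow_left₀ (by positivity) h1 2
    nlinarith
  rw [le_div_iff₀ (by positivity)]
  have h3 : Real.exp (-x ^ 2 / 2) * Real.exp (x ^ 2 / 2) = 1 := by
    rw [← Real.exp_add, ← Real.exp_zero]; congr 1; ring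
  calc Real.exp (-x ^ 2 / 2) * (1 + x ^ 2) ^ 2 ≤
      Real.exp (-x ^ 2 / 2) * (4 * Real.exp (x ^ 2 / 2)) := by gcongr
    _ = 4 := by linear_combination 4 * h3

lemma gauss_int (γ : ℝ) : Integrable (fun t : ℝ => Real.exp (-(γ - t) ^ 2 / 2)) := by
  have h := (integrable_exp_neg_mul_sq (show (0 : ℝ) < 1 / 2 by norm_num)).comp_sub_left γ
  refine h.congr (Filter.Eventually.of_forall fun t => ?_)
  show Real.exp (-(1 / 2) * (γ - t) ^ 2) = _
  congr 1; ring

lemma gauss_val (γ : ℝ) : ∫ t : ℝ, Real.exp (-(γ - t) ^ 2 / 2) = Real.sqrt (2 * Real.pi) := by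
  have h := integral_gaussian (1 / 2)
  have h2 := integral_sub_left_eq_self (fun t : ℝ => Real.exp (-(1 / 2) * t ^ 2)) (volume : Measure ℝ) γ
  rw [h] at h2
  calc ∫ t : ℝ, Real.exp (-(γ - t) ^ 2 / 2) = ∫ t : ℝ, Real.exp (-(1 / 2) * (γ - t) ^ 2) := by
        congr 1; funext t; congr 1; ring
    _ = _ := by rw [h2]; congr 1; ring

lemma tailE (γ P : ℝ) (S : Set ℝ) (hS : MeasurableSet S) (h : ∀ t ∈ S, (γ - P) ^ 2 ≤ (t - γ) ^ 2) :
    ∫ t in S, Real.exp (-(γ - t) ^ 2 / 2) ≤ 4 * Real.pi * (1 / (1 + (γ - P) ^ 2)) := by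
  have hi : Integrable (fun t : ℝ => (4 / (1 + (γ - P) ^ 2)) * (1 + (t - γ) ^ 2)⁻¹) :=
    (integrable_inv_one_add_sq.comp_sub_right γ).const_mul _
  calc ∫ t in S, Real.exp (-(γ - t) ^ 2 / 2) ≤
      ∫ t in S, (4 / (1 + (γ - P) ^ 2)) * (1 + (t - γ) ^ 2)⁻¹ := by
        refine setIntegral_mono_on (gauss_int γ).integrableOn hi.integrableOn hS fun t ht => ?_
        have h1 := exp_le_sq (t - γ)
        have h2 : -(γ - t) ^ 2 / 2 = -(t - γ) ^ 2 / 2 := by ring
        rw [h2]
        refine h1.trans ?_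
        rw [div_mul_eq_mul_div, mul_comm, ← div_eq_inv_mul, div_div]
        apply div_le_div_of_nonneg_left (by norm_num) (by positivity)
        have h3 := h t ht
        nlinarith [sq_nonneg (t - γ)]
    _ ≤ ∫ t, (4 / (1 + (γ - P) ^ 2)) * (1 + (t - γ) ^ 2)⁻¹ :=
        setIntegral_le_integral hi (Filter.Eventually.of_forall fun t => by positivity)
    _ = _ := by
        rw [integral_const_mul, integral_sub_right_eq_self (fun t : ℝ => (1 + t ^ 2)⁻¹) γ,
          integral_univ_inv_one_add_sq]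
        ring

lemma c0_pi : (1 / Real.sqrt (2 * Real.pi)) * (4 * Real.pi) ≤ 6 := by
  have hpi := Real.pi_pos
  have hpi2 := Real.pi_lt_d2
  have h1 : Real.sqrt (2 * Real.pi) ≤ 3 := by
    rw [Real.sqrt_le_left (by norm_num)]; nlinarith
  have h0 : 0 < Real.sqrt (2 * Real.pi) := by positivity
  have h2 : Real.sqrt (2 * Real.pi) ^ 2 = 2 * Real.pi := Real.sq_sqrt (by positivity)
  have h3 : (1 / Real.sqrt (2 * Real.pi)) * (4 * Real.pi) = 2 * Real.sqrt (2 * Real.pi) := by
    field_simp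
    rw [h2]; ring
  rw [h3]; linarith

lemma cut_gauss (γ A B : ℝ) (hAB : A ≤ B) :
    |(if A < γ ∧ γ ≤ B then (1 : ℝ) else 0) -
      (1 / Real.sqrt (2 * Real.pi)) * ∫ t in A..B, Real.exp (-(γ - t) ^ 2 / 2)| ≤
      6 * (1 / (1 + (γ - A) ^ 2)) + 6 * (1 / (1 + (γ - B) ^ 2)) := by
  have hs0 : 0 < Real.sqrt (2 * Real.pi) := by have := Real.pi_pos; positivity
  set c0 := 1 / Real.sqrt (2 * Real.pi) with hc0
  have hc00 : 0 < c0 := by positivity
  have hc := c0_pi
  rw [← hc0] at hc
  have hA0 : 0 ≤ 1 / (1 + (γ - A) ^ 2) := by positivity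
  have hB0 : 0 ≤ 1 / (1 + (γ - B) ^ 2) := by positivity
  have key : ∀ x : ℝ, 0 ≤ x → c0 * (4 * Real.pi * x) ≤ 6 * x := fun x hx => by
    have := mul_le_mul_of_nonneg_right hc hx
    linarith
  have hpos : ∀ S : Set ℝ, 0 ≤ ∫ t in S, Real.exp (-(γ - t) ^ 2 / 2) := fun S =>
    integral_nonneg fun t => (Real.exp_pos _).le
  split_ifs with h
  · have e1 := intervalIntegral.integral_Iic_add_Ioi (b := A) (gauss_int γ).integrableOn
      (gauss_int γ).integrableOn
    have e2 := intervalIntegral.integral_interval_add_Ioi (a := A) (b := B)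
      (gauss_int γ).integrableOn (gauss_int γ).integrableOn
    rw [gauss_val] at e1
    have t1 := tailE γ A (Iic A) measurableSet_Iic fun t ht => by
      have ht' : t ≤ A := ht
      nlinarith [h.1]
    have t2 := tailE γ B (Ioi B) measurableSet_Ioi fun t ht => by
      have ht' : B < t := ht
      nlinarith [h.2]
    have e3 : (1 : ℝ) = c0 * Real.sqrt (2 * Real.pi) := by rw [hc0]; field_simp
    have e4 : (1 : ℝ) - c0 * ∫ t in A..B, Real.exp (-(γ - t) ^ 2 / 2) =
        c0 * ((∫ t in Iic A, Real.exp (-(γ - t) ^ 2 / 2)) +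
          ∫ t in Ioi B, Real.exp (-(γ - t) ^ 2 / 2)) := by
      nth_rewrite 1 [e3]
      rw [← e1, ← e2]; ring
    rw [e4, abs_of_nonneg (mul_nonneg hc00.le (add_nonneg (hpos _) (hpos _)))]
    have k1 := key _ hA0
    have k2 := key _ hB0
    have k3 : c0 * ((∫ t in Iic A, Real.exp (-(γ - t) ^ 2 / 2)) +
          ∫ t in Ioi B, Real.exp (-(γ - t) ^ 2 / 2)) ≤
        c0 * (4 * Real.pi * (1 / (1 + (γ - A) ^ 2)) + 4 * Real.pi * (1 / (1 + (γ - B) ^ 2))) := by
      gcongr
    linarith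
  · rw [zero_sub, abs_neg, intervalIntegral.integral_of_le hAB,
      abs_of_nonneg (mul_nonneg hc00.le (hpos _))]
    rcases le_or_gt γ A with h1 | h1
    · have t1 := tailE γ A (Ioc A B) measurableSet_Ioc fun t ht => by
        nlinarith [ht.1]
      have k1 := key _ hA0
      have k3 := mul_le_mul_of_nonneg_left t1 hc00.le
      linarith
    · have h2 : B < γ := by
        by_contra h3
        exact h ⟨h1, not_lt.1 h3⟩
      have t1 := tailE γ B (Ioc A B) measurableSet_Ioc fun t ht => by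
        nlinarith [ht.2]
      have k1 := key _ hB0
      have k3 := mul_le_mul_of_nonneg_left t1 hc00.le
      linarith

/-! ### the sum over prime powers -/

lemma h_bound (z : ℝ) : Real.exp (-z / 2) * (1 + Real.exp z) * (1 + |z|) * Real.exp (-z ^ 2 / 2) ≤
    2 * Real.exp 4 := by
  have h1 : 1 + Real.exp z ≤ 2 * Real.exp |z| := by
    have a1 : Real.exp z ≤ Real.exp |z| := Real.exp_le_exp.2 (le_abs_self z)
    have a2 : 1 ≤ Real.exp |z| := Real.one_le_exp (abs_nonneg z)
    linarith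
  have h2 : Real.exp (-z / 2) ≤ Real.exp (|z| / 2) := by
    apply Real.exp_le_exp.2
    have := neg_le_abs z
    linarith
  have h3 : 1 + |z| ≤ Real.exp |z| := by
    have := Real.add_one_le_exp |z|
    linarith
  calc _ ≤ Real.exp (|z| / 2) * (2 * Real.exp |z|) * Real.exp |z| * Real.exp (-z ^ 2 / 2) := by
        gcongr
    _ = 2 * Real.exp (|z| / 2 + |z| + |z| + -z ^ 2 / 2) := by
        rw [Real.exp_add, Real.exp_add, Real.exp_add]; ring
    _ ≤ 2 * Real.exp 4 := by
        gcongr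
        have := sq_abs z
        nlinarith [sq_nonneg (|z| - 5 / 2)]

lemma term_b (v : ℝ) (hv : 0 ≤ v) (n : ℕ) (hn : 1 ≤ n) :
    vonMangoldt n * (n : ℝ) ^ (-(1 / 2 : ℝ)) * Real.exp (-(v - Real.log n) ^ 2 / 2) *
      (n + Real.exp v) ≤ 2 * Real.exp 4 * ((v + 1) * Real.exp (v / 2)) := by
  have hn0 : (0 : ℝ) < n := by exact_mod_cast hn
  set z := Real.log n - v with hz
  have hlog : Real.log n = v + z := by rw [hz]; ring
  have hnz : (n : ℝ) = Real.exp v * Real.exp z := by
    rw [← Real.exp_add, ← hlog, Real.exp_log hn0]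
  have h1 : vonMangoldt n ≤ (v + 1) * (1 + |z|) := by
    have h2 := vonMangoldt_le_log (n := n)
    rw [hlog] at h2
    have h3 := le_abs_self z
    have h4 := abs_nonneg z
    nlinarith
  have h2 : (n : ℝ) ^ (-(1 / 2 : ℝ)) = Real.exp (-v / 2) * Real.exp (-z / 2) := by
    rw [Real.rpow_def_of_pos hn0, hlog, ← Real.exp_add]
    congr 1; ring
  have h3 : (n : ℝ) + Real.exp v = Real.exp v * (1 + Real.exp z) := by rw [hnz]; ring
  have h4 : -(v - Real.log n) ^ 2 / 2 = -z ^ 2 / 2 := by rw [hz]; ring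
  rw [h2, h3, h4]
  have h5 : Real.exp (-v / 2) * Real.exp v = Real.exp (v / 2) := by
    rw [← Real.exp_add]; congr 1; ring
  have h6 := h_bound z
  calc vonMangoldt n * (Real.exp (-v / 2) * Real.exp (-z / 2)) * Real.exp (-z ^ 2 / 2) *
      (Real.exp v * (1 + Real.exp z)) ≤
      ((v + 1) * (1 + |z|)) * (Real.exp (-v / 2) * Real.exp (-z / 2)) * Real.exp (-z ^ 2 / 2) *
      (Real.exp v * (1 + Real.exp z)) := by gcongr
    _ = (v + 1) * (Real.exp (-v / 2) * Real.exp v) *
        (Real.exp (-z / 2) * (1 + Real.exp z) * (1 + |z|) * Real.exp (-z ^ 2 / 2)) := by ring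
    _ ≤ (v + 1) * (Real.exp (-v / 2) * Real.exp v) * (2 * Real.exp 4) := by gcongr
    _ = _ := by rw [h5]; ring

lemma dist_b (v : ℝ) (n : ℕ) (hn : 1 ≤ n) :
    |(n : ℝ) - Real.exp v| ≤ (n + Real.exp v) * |v - Real.log n| := by
  have hn0 : (0 : ℝ) < n := by exact_mod_cast hn
  have hy : 0 < Real.exp v := Real.exp_pos v
  have h1 := Real.add_one_le_exp (v - Real.log n)
  have h2 := Real.add_one_le_exp (-(v - Real.log n))
  have e1 : Real.exp (v - Real.log n) = Real.exp v / n := by rw [Real.exp_sub, Real.exp_log hn0]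
  have e2 : Real.exp (-(v - Real.log n)) = n / Real.exp v := by
    rw [neg_sub, Real.exp_sub, Real.exp_log hn0]
  rw [e1] at h1
  rw [e2] at h2
  rw [le_div_iff₀ hn0] at h1
  rw [le_div_iff₀ hy] at h2
  have h3 := le_abs_self (v - Real.log n)
  have h4 := neg_le_abs (v - Real.log n)
  have h5 := abs_nonneg (v - Real.log n)
  rw [abs_le]
  constructor <;> nlinarith

theorem fin_sum (v : ℝ) (hv : Real.log 2 ≤ v) (H : ℝ) (hH : 0 ≤ H) (κ : ℕ → ℝ)
    (hκ0 : ∀ n, 0 ≤ κ n) (hκH : ∀ n, κ n ≤ H) (hκ2 : ∀ n, κ n * |v - Real.log n| ≤ 2) (N : ℕ) :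
    ∑ n ∈ Finset.Ico 1 N, vonMangoldt n * (n : ℝ) ^ (-(1 / 2 : ℝ)) *
        Real.exp (-(v - Real.log n) ^ 2 / 2) * κ n ≤
      4 * ((v + 1) * Real.exp (-v / 2) * H) +
      16 * Real.exp 4 * ((v + 1) * Real.exp (v / 2)) * (1 + Real.log (N + Real.exp v)) := by
  classical
  have hl2 := Real.log_two_gt_d9
  have hv0 : 0 ≤ v := by linarith
  set y := Real.exp v with hy
  have hy2 : 2 ≤ y := by
    rw [hy]
    calc (2 : ℝ) = Real.exp (Real.log 2) := (Real.exp_log (by norm_num)).symm
      _ ≤ Real.exp v := Real.exp_le_exp.2 hv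
  have hy0 : 0 < y := by linarith
  set m := ⌊y⌋₊ with hm
  have hmy : (m : ℝ) ≤ y := Nat.floor_le hy0.le
  have hym : y < m + 1 := Nat.lt_floor_add_one y
  have hm2 : 2 ≤ m := by rw [hm]; exact Nat.le_floor (by exact_mod_cast hy2)
  have hm2' : (2 : ℝ) ≤ m := by exact_mod_cast hm2
  set f : ℕ → ℝ := fun n => vonMangoldt n * (n : ℝ) ^ (-(1 / 2 : ℝ)) *
        Real.exp (-(v - Real.log n) ^ 2 / 2) * κ n with hf
  have hf0 : ∀ n, 0 ≤ f n := fun n => mul_nonneg (mul_nonneg (mul_nonneg vonMangoldt_nonneg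
    (by positivity)) (Real.exp_pos _).le) (hκ0 n)
  set Cb := 2 * Real.exp 4 * ((v + 1) * Real.exp (v / 2)) with hCb
  have hCb0 : 0 < Cb := by positivity
  -- near terms
  have hnear : ∀ n, m ≤ n → n ≤ m + 1 → f n ≤ 2 * ((v + 1) * Real.exp (-v / 2) * H) := by
    intro n h1 h2
    have hn1 : 1 ≤ n := by omega
    have hn0 : (0 : ℝ) < n := by exact_mod_cast hn1
    have hnm : (m : ℝ) ≤ n := by exact_mod_cast h1
    have hnm2 : (n : ℝ) ≤ m + 1 := by exact_mod_cast h2
    have hlam : vonMangoldt n ≤ v + 1 := by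
      refine vonMangoldt_le_log.trans ?_
      calc Real.log n ≤ Real.log (2 * y) := Real.log_le_log hn0 (by linarith)
        _ = Real.log 2 + v := by rw [Real.log_mul (by norm_num) (by positivity), hy, Real.log_exp]
        _ ≤ _ := by have := Real.log_two_lt_d9; linarith
    have hr : (n : ℝ) ^ (-(1 / 2 : ℝ)) ≤ 2 * Real.exp (-v / 2) := by
      have h3 : Real.log (y / 2) ≤ Real.log n := Real.log_le_log (by positivity) (by linarith)
      rw [Real.log_div (by positivity) (by norm_num), hy, Real.log_exp] at h3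
      rw [Real.rpow_def_of_pos hn0]
      calc Real.exp (Real.log n * -(1 / 2)) ≤ Real.exp (Real.log 2 + -v / 2) := by
            apply Real.exp_le_exp.2
            have := Real.log_two_gt_d9
            linarith
        _ = _ := by rw [Real.exp_add, Real.exp_log (by norm_num)]
    have he : Real.exp (-(v - Real.log n) ^ 2 / 2) ≤ 1 := by
      rw [Real.exp_le_one_iff]
      have := sq_nonneg (v - Real.log n)
      linarith
    calc f n ≤ (v + 1) * (2 * Real.exp (-v / 2)) * 1 * H := by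
          simp only [hf]
          have := hκH n
          have := hκ0 n
          have : 0 ≤ vonMangoldt n := vonMangoldt_nonneg
          gcongr
      _ = _ := by ring
  -- far terms
  have hfar : ∀ n, 1 ≤ n → n ≠ m → n ≠ m + 1 → f n ≤ 4 * Cb * (1 / |(n : ℝ) - m|) := by
    intro n hn1 h1 h2
    have hn0 : (0 : ℝ) < n := by exact_mod_cast hn1
    have hd : |(n : ℝ) - m| ≤ 2 * |(n : ℝ) - y| := by
      rcases lt_or_ge n m with h3 | h3
      · have h4 : (n : ℝ) + 1 ≤ m := by exact_mod_cast h3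
        rw [abs_of_neg (by linarith), abs_of_neg (by linarith)]
        linarith
      · have h4 : (m : ℝ) + 2 ≤ n := by
          have : m + 2 ≤ n := by omega
          exact_mod_cast this
        rw [abs_of_pos (by linarith), abs_of_pos (by linarith)]
        linarith
    have hnm0 : 0 < |(n : ℝ) - m| := by
      rw [abs_pos, sub_ne_zero]; exact_mod_cast h1
    have hny0 : 0 < |(n : ℝ) - y| := by linarith
    have h5 := term_b v hv0 n hn1
    have h6 := dist_b v n hn1
    rw [← hy] at h5 h6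
    rw [← hCb] at h5
    set a := vonMangoldt n * (n : ℝ) ^ (-(1 / 2 : ℝ)) * Real.exp (-(v - Real.log n) ^ 2 / 2) with ha
    have ha0 : 0 ≤ a := mul_nonneg (mul_nonneg vonMangoldt_nonneg (by positivity)) (Real.exp_pos _).le
    have h7 : κ n * |(n : ℝ) - y| ≤ 2 * (n + y) := by
      calc κ n * |(n : ℝ) - y| ≤ κ n * ((n + y) * |v - Real.log n|) := by
            have := hκ0 n
            gcongr
        _ = (n + y) * (κ n * |v - Real.log n|) := by ring
        _ ≤ (n + y) * 2 := by have := hκ2 n; gcongr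
        _ = _ := by ring
    have h8 : a * κ n * |(n : ℝ) - y| ≤ 2 * Cb := by
      calc a * κ n * |(n : ℝ) - y| = a * (κ n * |(n : ℝ) - y|) := by ring
        _ ≤ a * (2 * (n + y)) := by gcongr
        _ = 2 * (a * (n + y)) := by ring
        _ ≤ 2 * Cb := by linarith
    show a * κ n ≤ _
    rw [mul_one_div, le_div_iff₀ hnm0]
    calc a * κ n * |(n : ℝ) - m| ≤ a * κ n * (2 * |(n : ℝ) - y|) := by
          have := hκ0 n
          gcongr
      _ = 2 * (a * κ n * |(n : ℝ) - y|) := by ring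
      _ ≤ 2 * (2 * Cb) := by linarith
      _ = _ := by ring
  set S := Finset.Ico 1 N with hS
  have hsplit : ∑ n ∈ S, f n ≤ ∑ n ∈ ({m, m + 1} : Finset ℕ), f n +
      ∑ n ∈ S.erase m, 4 * Cb * (1 / |(n : ℝ) - m|) := by
    have h1 : ∑ n ∈ S, f n = ∑ n ∈ S.filter (fun n => n = m ∨ n = m + 1), f n +
        ∑ n ∈ S.filter (fun n => ¬ (n = m ∨ n = m + 1)), f n :=
      (Finset.sum_filter_add_sum_filter_not _ _ _).symm
    rw [h1]
    apply add_le_add
    · apply Finset.sum_le_sum_of_subset_of_nonneg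
      · intro n hn
        rw [Finset.mem_filter] at hn
        rw [Finset.mem_insert, Finset.mem_singleton]
        exact hn.2
      · intro n _ _
        exact hf0 n
    · calc ∑ n ∈ S.filter (fun n => ¬ (n = m ∨ n = m + 1)), f n ≤
          ∑ n ∈ S.filter (fun n => ¬ (n = m ∨ n = m + 1)), 4 * Cb * (1 / |(n : ℝ) - m|) := by
            refine Finset.sum_le_sum fun n hn => ?_
            rw [Finset.mem_filter, hS, Finset.mem_Ico] at hn
            exact hfar n hn.1.1 (fun h => hn.2 (Or.inl h)) (fun h => hn.2 (Or.inr h))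
        _ ≤ _ := by
            apply Finset.sum_le_sum_of_subset_of_nonneg
            · intro n hn
              rw [Finset.mem_filter] at hn
              rw [Finset.mem_erase]
              exact ⟨fun h => hn.2 (Or.inl h), hn.1⟩
            · intro n _ _
              positivity
  refine hsplit.trans (add_le_add ?_ ?_)
  · rw [Finset.sum_pair (by omega)]
    have h1 := hnear m le_rfl (by omega)
    have h2 := hnear (m + 1) (by omega) le_rfl
    linarith
  · rw [← Finset.mul_sum]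
    have h1 := recip_sum S m (N + m) (fun n hn => by
      rw [hS, Finset.mem_Ico] at hn
      omega)
    have h2 : ∑ j ∈ Finset.Icc 1 (N + m), 1 / ((j : ℕ) : ℝ) ≤ 1 + Real.log (N + y) := by
      have h := harmonic_le_one_add_log (N + m)
      have e : ((harmonic (N + m) : ℚ) : ℝ) =
          ∑ j ∈ Finset.Icc 1 (N + m), 1 / ((j : ℕ) : ℝ) := by
        rw [harmonic_eq_sum_Icc]
        push_cast
        refine Finset.sum_congr rfl fun j _ => by rw [one_div]
      rw [← e]
      refine h.trans ?_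
      have : Real.log ((N + m : ℕ) : ℝ) ≤ Real.log (N + y) := by
        apply Real.log_le_log
        · push_cast; positivity
        · push_cast; linarith
      linarith
    calc 4 * Cb * ∑ n ∈ S.erase m, 1 / |(n : ℝ) - m| ≤ 4 * Cb * (2 * (1 + Real.log (N + y))) := by
          gcongr
          linarith
      _ = _ := by rw [hCb]; ring

end Pool.Agent.H8.TT
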