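import Pool.Agent.H8.TT.Z1

/-! A pointwise bound for the exponential sum over the zeros of zeta. -/

set_option autoImplicit false

open Finset ArithmeticFunction MeasureTheory Set

namespace Pool.Agent.H8.TT

open H370
open Pool.Agent.H345R2.AP (SS SS_nonneg tail_pt rpow_half_split Zs term_norm term_summable cpow_split)

/-- exponential sum over zeros -/
noncomputable def Zv (A B v : ℝ) : ℂ :=
  ∑ s ∈ Zf riemannZeta A B, (mult riemannZeta s : ℂ) *
    Complex.exp (Complex.I * ((v * s.im : ℝ) : ℂ))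

lemma norm_ei (x : ℝ) : ‖Complex.exp (Complex.I * (x : ℂ))‖ = 1 := by
  rw [mul_comm]; exact Complex.norm_exp_ofReal_mul_I x

lemma Zs_fin (T t u : ℝ) (hT : 1 ≤ T) : Zs T t u = ∑ s ∈ Zf riemannZeta T (2 * T),
    (mult riemannZeta s : ℂ) * (Real.exp (-(s.im - t) ^ 2 / 2) : ℂ) *
        Complex.exp (Complex.I * ((u * (s.im - t) : ℝ) : ℂ)) := by
  unfold Zs SP.ZZ
  rw [finsum_Zf good_zeta hT]
  rfl

lemma Zs_cont_t (T u : ℝ) (hT : 1 ≤ T) : Continuous (fun t => Zs T t u) := by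
  simp only [Zs_fin T _ u hT]
  fun_prop

theorem zv_cut : ∃ C : ℝ, 0 < C ∧ ∀ T : ℝ, 10 ≤ T → ∀ A B v : ℝ, T ≤ A → A ≤ B → B ≤ 2 * T →
    ‖Zv A B v - ((1 / Real.sqrt (2 * Real.pi) : ℝ) : ℂ) *
      ∫ t in A..B, Complex.exp (Complex.I * ((v * t : ℝ) : ℂ)) * Zs T t v‖ ≤ C * Real.log T := by
  classical
  obtain ⟨Cw, hCw, hw⟩ := H370.A2.weight_sum good_zeta
  refine ⟨12 * Cw, by positivity, fun T hT A B v hA hAB hB => ?_⟩
  have hT1 : 1 ≤ T := by linarith
  set c0 : ℝ := 1 / Real.sqrt (2 * Real.pi) with hc0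
  set Z := Zf riemannZeta T (2 * T) with hZ
  have hI : ∫ t in A..B, Complex.exp (Complex.I * ((v * t : ℝ) : ℂ)) * Zs T t v =
      ∑ s ∈ Z, (mult riemannZeta s : ℂ) * Complex.exp (Complex.I * ((v * s.im : ℝ) : ℂ)) *
        ((∫ t in A..B, Real.exp (-(s.im - t) ^ 2 / 2) : ℝ) : ℂ) := by
    have h1 : ∀ t : ℝ, Complex.exp (Complex.I * ((v * t : ℝ) : ℂ)) * Zs T t v =
        ∑ s ∈ Z, (mult riemannZeta s : ℂ) * Complex.exp (Complex.I * ((v * s.im : ℝ) : ℂ)) *
          ((Real.exp (-(s.im - t) ^ 2 / 2) : ℝ) : ℂ) := by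
      intro t
      rw [Zs_fin T t v hT1, Finset.mul_sum]
      refine Finset.sum_congr rfl fun s _ => ?_
      have h2 : Complex.exp (Complex.I * ((v * s.im : ℝ) : ℂ)) =
          Complex.exp (Complex.I * ((v * t : ℝ) : ℂ)) *
            Complex.exp (Complex.I * ((v * (s.im - t) : ℝ) : ℂ)) := by
        rw [← Complex.exp_add]
        congr 1
        push_cast
        ring
      rw [h2]
      ring
    simp_rw [h1]
    rw [intervalIntegral.integral_finsetSum]
    · refine Finset.sum_congr rfl fun s _ => ?_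
      rw [intervalIntegral.integral_const_mul, intervalIntegral.integral_ofReal]
    · intro s _
      exact Continuous.intervalIntegrable (by fun_prop) _ _
  have hV : Zv A B v = ∑ s ∈ Z, (mult riemannZeta s : ℂ) *
      Complex.exp (Complex.I * ((v * s.im : ℝ) : ℂ)) *
        (((if A < s.im ∧ s.im ≤ B then (1 : ℝ) else 0 : ℝ)) : ℂ) := by
    unfold Zv
    have h2 : Zf riemannZeta A B = Z.filter (fun s => A < s.im ∧ s.im ≤ B) := by
      ext s
      rw [Finset.mem_filter, hZ, mem_Zf good_zeta hT1, mem_Zf good_zeta (hT1.trans hA)]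
      constructor
      · rintro ⟨h1, h2, h3, h4, h5⟩
        exact ⟨⟨h1, h2, by linarith, by linarith, h5⟩, h3, h4⟩
      · rintro ⟨⟨h1, h2, h3, h4, h5⟩, h6, h7⟩
        exact ⟨h1, h2, h6, h7, h5⟩
    rw [h2, Finset.sum_filter]
    refine Finset.sum_congr rfl fun s _ => ?_
    split_ifs <;> simp
  rw [hI, hV, Finset.mul_sum, ← Finset.sum_sub_distrib]
  have hterm : ∀ s ∈ Z, ‖(mult riemannZeta s : ℂ) *
      Complex.exp (Complex.I * ((v * s.im : ℝ) : ℂ)) *
        (((if A < s.im ∧ s.im ≤ B then (1 : ℝ) else 0 : ℝ)) : ℂ) -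
      (c0 : ℂ) * ((mult riemannZeta s : ℂ) * Complex.exp (Complex.I * ((v * s.im : ℝ) : ℂ)) *
        ((∫ t in A..B, Real.exp (-(s.im - t) ^ 2 / 2) : ℝ) : ℂ))‖ ≤
      6 * ((mult riemannZeta s : ℝ) * (1 / (1 + (s.im - A) ^ 2))) +
      6 * ((mult riemannZeta s : ℝ) * (1 / (1 + (s.im - B) ^ 2))) := by
    intro s _
    have e : (mult riemannZeta s : ℂ) *
      Complex.exp (Complex.I * ((v * s.im : ℝ) : ℂ)) *
        (((if A < s.im ∧ s.im ≤ B then (1 : ℝ) else 0 : ℝ)) : ℂ) -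
      (c0 : ℂ) * ((mult riemannZeta s : ℂ) * Complex.exp (Complex.I * ((v * s.im : ℝ) : ℂ)) *
        ((∫ t in A..B, Real.exp (-(s.im - t) ^ 2 / 2) : ℝ) : ℂ)) =
        (mult riemannZeta s : ℂ) * Complex.exp (Complex.I * ((v * s.im : ℝ) : ℂ)) *
        ((((if A < s.im ∧ s.im ≤ B then (1 : ℝ) else 0) -
          c0 * ∫ t in A..B, Real.exp (-(s.im - t) ^ 2 / 2) : ℝ)) : ℂ) := by
      push_cast
      ring
    rw [e, norm_mul, norm_mul, norm_ei, mul_one, Complex.norm_natCast, Complex.norm_real,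
      Real.norm_eq_abs]
    have h1 := cut_gauss s.im A B hAB
    have h2 := mul_le_mul_of_nonneg_left h1 (Nat.cast_nonneg (α := ℝ) (mult riemannZeta s))
    refine h2.trans (le_of_eq ?_)
    ring
  refine (norm_sum_le _ _).trans ((Finset.sum_le_sum hterm).trans ?_)
  rw [Finset.sum_add_distrib, ← Finset.mul_sum, ← Finset.mul_sum]
  have h1 := hw T hT T (2 * T) le_rfl (by linarith) A
  have h2 := hw T hT T (2 * T) le_rfl (by linarith) B
  rw [← hZ] at h1 h2
  linarith

lemma kap_le (a A B : ℝ) (hAB : A ≤ B) :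
    ‖∫ t in A..B, Complex.exp (Complex.I * ((a * t : ℝ) : ℂ))‖ ≤ B - A ∧
    ‖∫ t in A..B, Complex.exp (Complex.I * ((a * t : ℝ) : ℂ))‖ * |a| ≤ 2 := by
  constructor
  · have h := intervalIntegral.norm_integral_le_of_norm_le_const (a := A) (b := B) (C := 1)
      (f := fun t : ℝ => Complex.exp (Complex.I * ((a * t : ℝ) : ℂ))) (fun t _ => by rw [norm_ei])
    rw [one_mul, abs_of_nonneg (by linarith)] at h
    exact h
  · rcases eq_or_ne a 0 with h | h
    · rw [h, abs_zero, mul_zero]; norm_num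
    have hc : Complex.I * (a : ℂ) ≠ 0 := mul_ne_zero Complex.I_ne_zero (by exact_mod_cast h)
    have h1 := integral_exp_mul_complex (a := A) (b := B) hc
    have h2 : ∀ t : ℝ, Complex.I * ((a * t : ℝ) : ℂ) = Complex.I * (a : ℂ) * t := by
      intro t; push_cast; ring
    simp_rw [h2]
    rw [h1, norm_div, norm_mul, Complex.norm_I, one_mul, Complex.norm_real, Real.norm_eq_abs,
      div_mul_cancel₀ _ (by rw [abs_ne_zero]; exact h)]
    refine (norm_sub_le _ _).trans ?_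
    rw [← h2, ← h2, norm_ei, norm_ei]
    norm_num

/-- the prime sum -/
noncomputable def Pt (v t : ℝ) : ℂ := ∑' n : ℕ, (vonMangoldt n : ℂ) *
  (n : ℂ) ^ (-(1 / 2 : ℂ) - Complex.I * (t : ℂ)) * (Real.exp (-(v - Real.log n) ^ 2 / 2) : ℂ)

lemma term_eq (v t : ℝ) (n : ℕ) :
    (vonMangoldt n : ℂ) * (n : ℂ) ^ (-(1 / 2 : ℂ) - Complex.I * (t : ℂ)) *
      (Real.exp (-(v - Real.log n) ^ 2 / 2) : ℂ) =
    ((vonMangoldt n * (n : ℝ) ^ (-(1 / 2 : ℝ)) * Real.exp (-(v - Real.log n) ^ 2 / 2) : ℝ) : ℂ) *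
      Complex.exp (Complex.I * ((-Real.log n * t : ℝ) : ℂ)) := by
  rcases Nat.eq_zero_or_pos n with h | h
  · subst h; simp
  · rw [cpow_split n h]
    have h1 : Complex.exp (-(Complex.I * ((t * Real.log n : ℝ) : ℂ))) =
        Complex.exp (Complex.I * ((-Real.log n * t : ℝ) : ℂ)) := by
      congr 1; push_cast; ring
    rw [h1]
    push_cast
    ring

lemma sum_pt (v : ℝ) (hv : 0 ≤ v) : Summable (fun n : ℕ => vonMangoldt n * (n : ℝ) ^ (-(1 / 2 : ℝ)) *
    Real.exp (-(v - Real.log n) ^ 2 / 2)) := by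
  have h := (term_summable 0 v hv).norm
  refine h.congr fun n => ?_
  rw [term_norm]

lemma term_cont (v : ℝ) (n : ℕ) : Continuous (fun t : ℝ => (vonMangoldt n : ℂ) *
    (n : ℂ) ^ (-(1 / 2 : ℂ) - Complex.I * (t : ℂ)) *
      (Real.exp (-(v - Real.log n) ^ 2 / 2) : ℂ)) := by
  simp only [term_eq]
  fun_prop

lemma Pt_cont (v : ℝ) (hv : 0 ≤ v) : Continuous (Pt v) := by
  unfold Pt
  refine continuous_tsum (fun n => term_cont v n) (sum_pt v hv) fun n t => ?_
  rw [term_norm]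

lemma Pt_int (v A B : ℝ) (hv : 0 ≤ v) :
    ∫ t in A..B, Complex.exp (Complex.I * ((v * t : ℝ) : ℂ)) * Pt v t =
      ∑' n : ℕ, ((vonMangoldt n * (n : ℝ) ^ (-(1 / 2 : ℝ)) *
        Real.exp (-(v - Real.log n) ^ 2 / 2) : ℝ) : ℂ) *
        ∫ t in A..B, Complex.exp (Complex.I * (((v - Real.log n) * t : ℝ) : ℂ)) := by
  set F : ℕ → ℝ → ℂ := fun n t => Complex.exp (Complex.I * ((v * t : ℝ) : ℂ)) *
    ((vonMangoldt n : ℂ) * (n : ℂ) ^ (-(1 / 2 : ℂ) - Complex.I * (t : ℂ)) *
      (Real.exp (-(v - Real.log n) ^ 2 / 2) : ℂ)) with hF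
  have hFe : ∀ n t, F n t = ((vonMangoldt n * (n : ℝ) ^ (-(1 / 2 : ℝ)) *
        Real.exp (-(v - Real.log n) ^ 2 / 2) : ℝ) : ℂ) *
        Complex.exp (Complex.I * (((v - Real.log n) * t : ℝ) : ℂ)) := by
    intro n t
    simp only [hF]
    rw [term_eq, mul_left_comm, ← Complex.exp_add]
    congr 2
    push_cast
    ring
  have hFn : ∀ n t, ‖F n t‖ = vonMangoldt n * (n : ℝ) ^ (-(1 / 2 : ℝ)) *
        Real.exp (-(v - Real.log n) ^ 2 / 2) := by
    intro n t
    rw [hFe, norm_mul, norm_ei, mul_one, Complex.norm_real, Real.norm_eq_abs, abs_of_nonneg]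
    exact mul_nonneg (mul_nonneg vonMangoldt_nonneg (by positivity)) (Real.exp_pos _).le
  have hs := sum_pt v hv
  have h := intervalIntegral.hasSum_integral_of_dominated_convergence (μ := volume) (a := A) (b := B)
    (F := F) (f := fun t => Complex.exp (Complex.I * ((v * t : ℝ) : ℂ)) * Pt v t)
    (fun n _ => vonMangoldt n * (n : ℝ) ^ (-(1 / 2 : ℝ)) *
        Real.exp (-(v - Real.log n) ^ 2 / 2))
    (fun n => by
      have : Continuous (F n) := by
        have h1 : F n = fun t => ((vonMangoldt n * (n : ℝ) ^ (-(1 / 2 : ℝ)) *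
          Real.exp (-(v - Real.log n) ^ 2 / 2) : ℝ) : ℂ) *
          Complex.exp (Complex.I * (((v - Real.log n) * t : ℝ) : ℂ)) := by
          funext t; exact hFe n t
        rw [h1]
        fun_prop
      exact this.aestronglyMeasurable)
    (fun n => Filter.Eventually.of_forall fun t _ => (hFn n t).le)
    (Filter.Eventually.of_forall fun t _ => hs)
    (continuous_const.intervalIntegrable _ _)
    (Filter.Eventually.of_forall fun t _ => ((term_summable t v hv).hasSum.mul_left _))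
  rw [← h.tsum_eq]
  refine tsum_congr fun n => ?_
  simp_rw [hFe]
  rw [intervalIntegral.integral_const_mul]

theorem Pt_bound : ∃ C : ℝ, 0 < C ∧ ∀ v A B : ℝ, Real.log 2 ≤ v → A ≤ B →
    ‖∫ t in A..B, Complex.exp (Complex.I * ((v * t : ℝ) : ℂ)) * Pt v t‖ ≤
      C * ((B - A) * ((v + 1) * Real.exp (-v / 2)) + Real.exp (v / 2) * (v + 1) ^ 2) := by
  classical
  have hSS := SS_nonneg
  refine ⟨4 + 64 * Real.exp 4 + 4 * Real.exp 2 * SS, by positivity, fun v A B hv hAB => ?_⟩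
  have hl2 := Real.log_two_gt_d9
  have hv0 : 0 ≤ v := by linarith
  rw [Pt_int v A B hv0]
  set κ : ℕ → ℝ := fun n => ‖∫ t in A..B, Complex.exp (Complex.I * (((v - Real.log n) * t : ℝ) : ℂ))‖
    with hκ
  have hκ0 : ∀ n, 0 ≤ κ n := fun n => norm_nonneg _
  have hκH : ∀ n, κ n ≤ B - A := fun n => (kap_le _ A B hAB).1
  have hκ2 : ∀ n, κ n * |v - Real.log n| ≤ 2 := fun n => (kap_le _ A B hAB).2
  set N := ⌈Real.exp (2 * v)⌉₊ with hN
  have hNe : Real.exp (2 * v) ≤ N := Nat.le_ceil _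
  have hNu : (N : ℝ) < Real.exp (2 * v) + 1 := Nat.ceil_lt_add_one (Real.exp_pos _).le
  have he1 : 1 ≤ Real.exp (2 * v) := Real.one_le_exp (by linarith)
  have hN1 : 1 ≤ N := by
    have : (0 : ℝ) < N := by linarith
    exact_mod_cast this
  have hNl : 2 * v ≤ Real.log N := by
    rw [Real.le_log_iff_exp_le (by linarith)]; exact hNe
  set f : ℕ → ℝ := fun n => vonMangoldt n * (n : ℝ) ^ (-(1 / 2 : ℝ)) *
        Real.exp (-(v - Real.log n) ^ 2 / 2) * κ n with hf
  set g : ℕ → ℝ := fun n => if n ∈ Finset.Ico 1 N then f n else 0 with hg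
  have hfs : HasSum g (∑ n ∈ Finset.Ico 1 N, f n) := by
    have h1 : HasSum g (∑ n ∈ Finset.Ico 1 N, g n) :=
      hasSum_sum_of_ne_finset_zero fun n hn => by simp only [hg]; rw [if_neg hn]
    have h2 : ∑ n ∈ Finset.Ico 1 N, g n = ∑ n ∈ Finset.Ico 1 N, f n :=
      Finset.sum_congr rfl fun n hn => by simp only [hg]; rw [if_pos hn]
    rwa [h2] at h1
  have hgs : HasSum (fun n : ℕ => 4 * Real.exp 2 * (vonMangoldt n * (n : ℝ) ^ (-(3 / 2 : ℝ))))
      (4 * Real.exp 2 * SS) := H370.lam_summable.hasSum.mul_left _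
  have hmain : ‖∑' n : ℕ, ((vonMangoldt n * (n : ℝ) ^ (-(1 / 2 : ℝ)) *
        Real.exp (-(v - Real.log n) ^ 2 / 2) : ℝ) : ℂ) *
        ∫ t in A..B, Complex.exp (Complex.I * (((v - Real.log n) * t : ℝ) : ℂ))‖ ≤
      ∑ n ∈ Finset.Ico 1 N, f n + 4 * Real.exp 2 * SS := by
    refine tsum_of_norm_bounded (hfs.add hgs) fun n => ?_
    have hnorm : ‖((vonMangoldt n * (n : ℝ) ^ (-(1 / 2 : ℝ)) *
        Real.exp (-(v - Real.log n) ^ 2 / 2) : ℝ) : ℂ) *
        ∫ t in A..B, Complex.exp (Complex.I * (((v - Real.log n) * t : ℝ) : ℂ))‖ = f n := by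
      rw [norm_mul, Complex.norm_real, Real.norm_eq_abs, abs_of_nonneg]
      exact mul_nonneg (mul_nonneg vonMangoldt_nonneg (by positivity)) (Real.exp_pos _).le
    rw [hnorm]
    have hnn : 0 ≤ 4 * Real.exp 2 * (vonMangoldt n * (n : ℝ) ^ (-(3 / 2 : ℝ))) :=
      mul_nonneg (by positivity) (mul_nonneg vonMangoldt_nonneg (by positivity))
    by_cases hn : n ∈ Finset.Ico 1 N
    · simp only [hg]
      rw [if_pos hn]
      linarith
    · simp only [hg]
      rw [if_neg hn, zero_add]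
      rcases Nat.eq_zero_or_pos n with h | h
      · simp only [hf]
        subst h
        simp
      have hnN : N ≤ n := by
        rw [Finset.mem_Ico] at hn
        omega
      have hn0 : (0 : ℝ) < n := by exact_mod_cast h
      have h2 := tail_pt N n hN1 hnN 2 v v (by norm_num) le_rfl
      have h3 : Real.exp (2 ^ 2 / 2 + 2 * v + (1 - 2) * Real.log N) ≤ Real.exp 2 := by
        apply Real.exp_le_exp.2
        linarith
      have h4 : κ n ≤ 4 := by
        have h5 := hκ2 n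
        have h6 : Real.log N ≤ Real.log n := Real.log_le_log (by linarith) (by exact_mod_cast hnN)
        have h7 : 1 / 2 ≤ |v - Real.log n| := by
          rw [abs_of_neg (by linarith)]
          linarith
        have := hκ0 n
        nlinarith
      simp only [hf]
      rw [rpow_half_split n h]
      have hL : 0 ≤ vonMangoldt n * (n : ℝ) ^ (-(3 / 2 : ℝ)) :=
        mul_nonneg vonMangoldt_nonneg (by positivity)
      calc vonMangoldt n * ((n : ℝ) ^ (-(3 / 2 : ℝ)) * n) * Real.exp (-(v - Real.log n) ^ 2 / 2) * κ n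
          = (vonMangoldt n * (n : ℝ) ^ (-(3 / 2 : ℝ))) *
            ((n * Real.exp (-(v - Real.log n) ^ 2 / 2)) * κ n) := by ring
        _ ≤ (vonMangoldt n * (n : ℝ) ^ (-(3 / 2 : ℝ))) * (Real.exp 2 * 4) := by
            apply mul_le_mul_of_nonneg_left _ hL
            exact mul_le_mul (h2.trans h3) h4 (hκ0 n) (Real.exp_pos _).le
        _ = _ := by ring
  refine hmain.trans ?_
  have hfin := fin_sum v hv (B - A) (by linarith) κ hκ0 hκH hκ2 N
  have hlog : 1 + Real.log (N + Real.exp v) ≤ 4 * (v + 1) := by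
    have h1 : (N : ℝ) + Real.exp v ≤ Real.exp (2 * v + 2) := by
      have h2 : Real.exp v ≤ Real.exp (2 * v) := Real.exp_le_exp.2 (by linarith)
      have h3 : (3 : ℝ) ≤ Real.exp 2 := by
        have := Real.add_one_le_exp (2 : ℝ)
        linarith
      rw [Real.exp_add]
      nlinarith
    have h4 := Real.log_le_log (by positivity) h1
    rw [Real.log_exp] at h4
    linarith
  set E1 := (v + 1) * Real.exp (-v / 2) with hE1
  set E2 := Real.exp (v / 2) with hE2
  have hE10 : 0 ≤ E1 := by positivity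
  have hE21 : 1 ≤ E2 := Real.one_le_exp (by linarith)
  have hp1 : 0 ≤ (B - A) * E1 := mul_nonneg (by linarith) hE10
  have hp2 : 1 ≤ E2 * (v + 1) ^ 2 := by nlinarith
  have h1 : ∑ n ∈ Finset.Ico 1 N, f n ≤ 4 * ((B - A) * E1) + 64 * Real.exp 4 * (E2 * (v + 1) ^ 2) := by
    refine hfin.trans ?_
    have h2 : 16 * Real.exp 4 * ((v + 1) * E2) * (1 + Real.log (N + Real.exp v)) ≤
        16 * Real.exp 4 * ((v + 1) * E2) * (4 * (v + 1)) := by
      gcongr
    calc _ ≤ 4 * (E1 * (B - A)) + 16 * Real.exp 4 * ((v + 1) * E2) * (4 * (v + 1)) := by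
          linarith
      _ = _ := by ring
  have h5 : 4 * Real.exp 2 * SS ≤ 4 * Real.exp 2 * SS * (E2 * (v + 1) ^ 2) :=
    le_mul_of_one_le_right (by positivity) hp2
  have h6 : 0 ≤ Real.exp 4 := by positivity
  have h7 : 0 ≤ 4 * Real.exp 2 * SS := by positivity
  nlinarith [mul_nonneg h6 hp1, mul_nonneg h7 hp1]

theorem zv_bound (hRH : SP.RHs) : ∃ C T0 : ℝ, 0 < C ∧ 10 ≤ T0 ∧ ∀ T : ℝ, T0 ≤ T →
    ∀ A B v : ℝ, T + Real.log T ≤ A → A ≤ B → B ≤ 2 * T - Real.log T → Real.log 2 ≤ v →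
      v ≤ Real.log T ^ 2 / 16 →
    ‖Zv A B v‖ ≤ C * (Real.log T + (B - A) * ((v + 1) * Real.exp (-v / 2)) +
      Real.exp (v / 2) * (v + 1) ^ 2) := by
  obtain ⟨C1, T0, hC1, hT0, hE⟩ := LG.EFX hRH
  obtain ⟨C2, hC2, hcut⟩ := zv_cut
  obtain ⟨C3, hC3, hP⟩ := Pt_bound
  refine ⟨C2 + 4 + C1 + C3, T0, by positivity, hT0, fun T hT A B v hA hAB hB hv hv2 => ?_⟩
  have hT10 : 10 ≤ T := hT0.trans hT
  have hT1 : 1 ≤ T := by linarith
  have hL0 : 0 ≤ Real.log T := Real.log_nonneg hT1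
  have hl2 := Real.log_two_gt_d9
  have hv0 : 0 ≤ v := by linarith
  have hc := hcut T hT10 A B v (by linarith) hAB (by linarith)
  set L := Real.log T with hL
  have hs1 : 1 ≤ Real.sqrt (2 * Real.pi) := by
    rw [show (1 : ℝ) = Real.sqrt 1 by simp]
    exact Real.sqrt_le_sqrt (by have := Real.pi_gt_three; linarith)
  set c0 : ℝ := 1 / Real.sqrt (2 * Real.pi) with hc0
  have hc00 : 0 < c0 := by positivity
  have hc01 : c0 ≤ 1 := by
    rw [hc0, div_le_one (by linarith)]; exact hs1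
  set e : ℝ → ℂ := fun t => Complex.exp (Complex.I * ((v * t : ℝ) : ℂ)) with he
  have hec : Continuous e := by simp only [he]; fun_prop
  set K : ℝ := L * Real.exp (-v ^ 2 / 2) with hK
  have hK0 : 0 ≤ K := by positivity
  have hKL : K ≤ L := by
    rw [hK]
    apply mul_le_of_le_one_right hL0
    rw [Real.exp_le_one_iff]
    have := sq_nonneg v
    linarith
  have hsplit : ∫ t in A..B, e t * Zs T t v =
      (∫ t in A..B, e t * (Zs T t v - (c0 : ℂ) * ((K : ℂ) - Pt v t))) +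
      ((c0 : ℂ) * K * (∫ t in A..B, e t) - (c0 : ℂ) * ∫ t in A..B, e t * Pt v t) := by
    have hz := Zs_cont_t T v hT1
    have hp := Pt_cont v hv0
    rw [← intervalIntegral.integral_const_mul, ← intervalIntegral.integral_const_mul,
      ← intervalIntegral.integral_sub, ← intervalIntegral.integral_add]
    · refine intervalIntegral.integral_congr fun t _ => ?_
      show e t * Zs T t v = _
      ring
    · exact Continuous.intervalIntegrable (by fun_prop) _ _
    · exact Continuous.intervalIntegrable (by fun_prop) _ _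
    · exact Continuous.intervalIntegrable (by fun_prop) _ _
    · exact Continuous.intervalIntegrable (by fun_prop) _ _
  have b1 : ‖∫ t in A..B, e t * (Zs T t v - (c0 : ℂ) * ((K : ℂ) - Pt v t))‖ ≤
      C1 * Real.exp (-v) * (B - A) := by
    have h := intervalIntegral.norm_integral_le_of_norm_le_const (a := A) (b := B)
      (C := C1 * Real.exp (-v))
      (f := fun t : ℝ => e t * (Zs T t v - (c0 : ℂ) * ((K : ℂ) - Pt v t))) (fun t ht => by
        rw [norm_mul]
        have h1 : ‖e t‖ = 1 := norm_ei _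
        rw [h1, one_mul]
        rw [uIoc_of_le hAB] at ht
        exact hE T hT v t hv0 hv2 (by linarith [ht.1]) (by linarith [ht.2]))
    rw [abs_of_nonneg (by linarith)] at h
    exact h
  have b2 : ‖(c0 : ℂ) * K * (∫ t in A..B, e t)‖ ≤ 4 * L := by
    rw [norm_mul, norm_mul, Complex.norm_real, Complex.norm_real, Real.norm_eq_abs,
      Real.norm_eq_abs, abs_of_pos hc00, abs_of_nonneg hK0]
    have h1 := (kap_le v A B hAB).2
    rw [abs_of_nonneg hv0] at h1
    have h2 : ‖∫ t in A..B, e t‖ ≤ 4 := by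
      have := norm_nonneg (∫ t in A..B, e t)
      nlinarith
    calc c0 * K * ‖∫ t in A..B, e t‖ ≤ 1 * L * 4 := by gcongr
      _ = _ := by ring
  have b3 : ‖(c0 : ℂ) * ∫ t in A..B, e t * Pt v t‖ ≤
      C3 * ((B - A) * ((v + 1) * Real.exp (-v / 2)) + Real.exp (v / 2) * (v + 1) ^ 2) := by
    rw [norm_mul, Complex.norm_real, Real.norm_eq_abs, abs_of_pos hc00]
    have h1 := hP v A B hv hAB
    calc c0 * ‖∫ t in A..B, e t * Pt v t‖ ≤ 1 * ‖∫ t in A..B, e t * Pt v t‖ := by gcongr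
      _ = _ := one_mul _
      _ ≤ _ := h1
  have b4 : ‖∫ t in A..B, e t * Zs T t v‖ ≤ C1 * Real.exp (-v) * (B - A) + (4 * L +
      C3 * ((B - A) * ((v + 1) * Real.exp (-v / 2)) + Real.exp (v / 2) * (v + 1) ^ 2)) := by
    rw [hsplit]
    refine (norm_add_le _ _).trans (add_le_add b1 ((norm_sub_le _ _).trans (add_le_add b2 b3)))
  have b5 : ‖(c0 : ℂ) * ∫ t in A..B, e t * Zs T t v‖ ≤ C1 * Real.exp (-v) * (B - A) + (4 * L +
      C3 * ((B - A) * ((v + 1) * Real.exp (-v / 2)) + Real.exp (v / 2) * (v + 1) ^ 2)) := by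
    rw [norm_mul, Complex.norm_real, Real.norm_eq_abs, abs_of_pos hc00]
    calc c0 * ‖∫ t in A..B, e t * Zs T t v‖ ≤ 1 * ‖∫ t in A..B, e t * Zs T t v‖ := by gcongr
      _ = _ := one_mul _
      _ ≤ _ := b4
  have b6 : ‖Zv A B v‖ ≤ C2 * L + (C1 * Real.exp (-v) * (B - A) + (4 * L +
      C3 * ((B - A) * ((v + 1) * Real.exp (-v / 2)) + Real.exp (v / 2) * (v + 1) ^ 2))) := by
    calc ‖Zv A B v‖ = ‖(Zv A B v - (c0 : ℂ) * ∫ t in A..B, e t * Zs T t v) +
        (c0 : ℂ) * ∫ t in A..B, e t * Zs T t v‖ := by rw [sub_add_cancel]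
      _ ≤ _ := (norm_add_le _ _).trans (add_le_add hc b5)
  refine b6.trans ?_
  have h8 : Real.exp (-v) * (B - A) ≤ (B - A) * ((v + 1) * Real.exp (-v / 2)) := by
    rw [mul_comm]
    apply mul_le_mul_of_nonneg_left _ (by linarith)
    calc Real.exp (-v) ≤ 1 * Real.exp (-v / 2) := by
          rw [one_mul]; exact Real.exp_le_exp.2 (by linarith)
      _ ≤ _ := by
          apply mul_le_mul_of_nonneg_right _ (Real.exp_pos _).le
          linarith
  set X := (B - A) * ((v + 1) * Real.exp (-v / 2)) with hX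
  set Y := Real.exp (v / 2) * (v + 1) ^ 2 with hY
  have hX0 : 0 ≤ X := mul_nonneg (by linarith) (by positivity)
  have hY0 : 0 ≤ Y := by positivity
  have h9 : C1 * Real.exp (-v) * (B - A) ≤ C1 * X := by
    rw [mul_assoc]
    exact mul_le_mul_of_nonneg_left h8 hC1.le
  nlinarith [mul_nonneg hC2.le hX0, mul_nonneg hC2.le hY0, mul_nonneg hC1.le hL0,
    mul_nonneg hC1.le hY0, mul_nonneg hC3.le hL0]

end Pool.Agent.H8.TT
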