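import Pool.Agent.H8.TT.Z2

/-! The basic inequality for a weighted family of points, before the zero side is estimated. -/

set_option autoImplicit false

open Finset ArithmeticFunction MeasureTheory intervalIntegral

namespace Pool.Agent.H8.TT

open Pool.Agent.H345R2.AP Pool.Agent.H452R4.LI

theorem gw_prime {ι : Type} (S : Finset ι) (w f : ι → ℝ) (hw : ∀ i ∈ S, 0 ≤ w i) (N : ℕ) (hN : 1 ≤ N)
    (p U u : ℝ) (hp : 1 ≤ p) (hu0 : 0 ≤ u) (hu : u ≤ U) :
    |∑ i ∈ S, w i * (∑' n : ℕ, (vonMangoldt n : ℂ) *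
        (n : ℂ) ^ (-(1 / 2 : ℂ) - Complex.I * ((|f i| : ℝ) : ℂ)) *
        (Real.exp (-(u - Real.log n) ^ 2 / 2) : ℂ)).re| ≤
      ∑ n ∈ Ico 1 N, vonMangoldt n * (n : ℝ) ^ (-(1 / 2 : ℝ)) *
        |∑ i ∈ S, w i * Real.cos (f i * Real.log n)| * Real.exp (-(u - Real.log n) ^ 2 / 2) +
      (∑ i ∈ S, w i) * Real.exp (p ^ 2 / 2 + p * U + (1 - p) * Real.log N) * SS := by
  classical
  have h0 : ∀ i, (∑' n : ℕ, (vonMangoldt n : ℂ) *
        (n : ℂ) ^ (-(1 / 2 : ℂ) - Complex.I * ((|f i| : ℝ) : ℂ)) *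
        (Real.exp (-(u - Real.log n) ^ 2 / 2) : ℂ)).re =
      ∑' n : ℕ, (vonMangoldt n * (n : ℝ) ^ (-(1 / 2 : ℝ)) * Real.exp (-(u - Real.log n) ^ 2 / 2) *
        Real.cos (f i * Real.log n)) := by
    intro i
    rw [Complex.re_tsum (term_summable _ u hu0)]
    refine tsum_congr fun n => ?_
    rw [GI_re, GI_cos]
  have hsm : ∀ i, Summable (fun n : ℕ => w i * (vonMangoldt n * (n : ℝ) ^ (-(1 / 2 : ℝ)) *
      Real.exp (-(u - Real.log n) ^ 2 / 2) * Real.cos (f i * Real.log n))) := by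
    intro i
    have h1 := (Complex.reCLM.hasSum (term_summable |f i| u hu0).hasSum).summable
    refine Summable.mul_left _ (h1.congr fun n => ?_)
    rw [Complex.reCLM_apply, GI_re, GI_cos]
  simp only [h0]
  have e0 : ∑ i ∈ S, w i * ∑' n : ℕ, (vonMangoldt n * (n : ℝ) ^ (-(1 / 2 : ℝ)) *
      Real.exp (-(u - Real.log n) ^ 2 / 2) * Real.cos (f i * Real.log n)) =
      ∑' n : ℕ, ∑ i ∈ S, w i * (vonMangoldt n * (n : ℝ) ^ (-(1 / 2 : ℝ)) *
      Real.exp (-(u - Real.log n) ^ 2 / 2) * Real.cos (f i * Real.log n)) := by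
    rw [Summable.tsum_finsetSum (fun i _ => hsm i)]
    refine Finset.sum_congr rfl fun i _ => ?_
    rw [tsum_mul_left]
  rw [e0]
  set W := ∑ i ∈ S, w i with hW
  have hW0 : 0 ≤ W := Finset.sum_nonneg hw
  set D : ℕ → ℝ := fun n => |∑ i ∈ S, w i * Real.cos (f i * Real.log n)| with hD
  have hD0 : ∀ n, 0 ≤ D n := fun n => abs_nonneg _
  have hDK : ∀ n, D n ≤ W := by
    intro n
    refine (Finset.abs_sum_le_sum_abs _ _).trans (Finset.sum_le_sum fun i hi => ?_)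
    rw [abs_mul, abs_of_nonneg (hw i hi)]
    exact mul_le_of_le_one_right (hw i hi) (Real.abs_cos_le_one _)
  set B := Real.exp (p ^ 2 / 2 + p * U + (1 - p) * Real.log N) with hB
  have hB0 : 0 < B := Real.exp_pos _
  set g : ℕ → ℝ := fun n => if n ∈ Ico 1 N then vonMangoldt n * (n : ℝ) ^ (-(1 / 2 : ℝ)) * D n *
        Real.exp (-(u - Real.log n) ^ 2 / 2) else 0 with hg
  have hfs : HasSum g (∑ n ∈ Ico 1 N, vonMangoldt n * (n : ℝ) ^ (-(1 / 2 : ℝ)) * D n *
        Real.exp (-(u - Real.log n) ^ 2 / 2)) := by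
    have h1 : HasSum g (∑ n ∈ Ico 1 N, g n) :=
      hasSum_sum_of_ne_finset_zero fun n hn => by simp only [hg]; rw [if_neg hn]
    have h2 : ∑ n ∈ Ico 1 N, g n = ∑ n ∈ Ico 1 N, vonMangoldt n * (n : ℝ) ^ (-(1 / 2 : ℝ)) * D n *
        Real.exp (-(u - Real.log n) ^ 2 / 2) :=
      Finset.sum_congr rfl fun n hn => by simp only [hg]; rw [if_pos hn]
    rwa [h2] at h1
  have hgs : HasSum (fun n : ℕ => W * B * (vonMangoldt n * (n : ℝ) ^ (-(3 / 2 : ℝ))))
      (W * B * SS) :=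
    H370.lam_summable.hasSum.mul_left _
  rw [← Real.norm_eq_abs]
  refine tsum_of_norm_bounded (hfs.add hgs) fun n => ?_
  rcases Nat.eq_zero_or_pos n with h | h
  · subst h
    simp [hg]
  have e1 : ∑ i ∈ S, w i * (vonMangoldt n * (n : ℝ) ^ (-(1 / 2 : ℝ)) *
      Real.exp (-(u - Real.log n) ^ 2 / 2) * Real.cos (f i * Real.log n)) =
      (vonMangoldt n * (n : ℝ) ^ (-(1 / 2 : ℝ)) *
      Real.exp (-(u - Real.log n) ^ 2 / 2)) * ∑ i ∈ S, w i * Real.cos (f i * Real.log n) := by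
    rw [Finset.mul_sum]
    refine Finset.sum_congr rfl fun i _ => ?_
    ring
  rw [e1, Real.norm_eq_abs, abs_mul,
    abs_of_nonneg (mul_nonneg (mul_nonneg vonMangoldt_nonneg (by positivity)) (by positivity))]
  change vonMangoldt n * (n : ℝ) ^ (-(1 / 2 : ℝ)) * Real.exp (-(u - Real.log n) ^ 2 / 2) * D n ≤ _
  have hnn : 0 ≤ vonMangoldt n * (n : ℝ) ^ (-(3 / 2 : ℝ)) :=
    mul_nonneg vonMangoldt_nonneg (by positivity)
  by_cases hnN : n < N
  · have h1 : g n = vonMangoldt n * (n : ℝ) ^ (-(1 / 2 : ℝ)) * D n *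
        Real.exp (-(u - Real.log n) ^ 2 / 2) := by
      simp only [hg]; rw [if_pos (mem_Ico.mpr ⟨h, hnN⟩)]
    rw [h1]
    have h2 : 0 ≤ W * B * (vonMangoldt n * (n : ℝ) ^ (-(3 / 2 : ℝ))) :=
      mul_nonneg (by positivity) hnn
    nlinarith
  · have h1 : g n = 0 := by
      simp only [hg]; rw [if_neg]; rw [mem_Ico]; omega
    rw [h1, zero_add]
    have h2 := tail_pt N n hN (by omega) p U u hp hu
    rw [rpow_half_split n h]
    calc vonMangoldt n * ((n : ℝ) ^ (-(3 / 2 : ℝ)) * n) * Real.exp (-(u - Real.log n) ^ 2 / 2) * D n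
        = (vonMangoldt n * (n : ℝ) ^ (-(3 / 2 : ℝ))) *
          ((n * Real.exp (-(u - Real.log n) ^ 2 / 2)) * D n) := by
          ring
      _ ≤ (vonMangoldt n * (n : ℝ) ^ (-(3 / 2 : ℝ))) * (B * W) := by
          apply mul_le_mul_of_nonneg_left _ hnn
          exact mul_le_mul h2 (hDK n) (hD0 n) hB0.le
      _ = _ := by ring

/-- the zero side of the inequality, a weighted sum over the family -/
noncomputable def ZI {ι : Type} (S : Finset ι) (w f : ι → ℝ) (u : ℝ) : ℝ :=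
  ∑ i ∈ S, w i * (Zs (2 * |f i| / 3) (|f i|) u).re

theorem gw (hRH : SP.RHs) : ∃ C T0 : ℝ, 0 < C ∧ 10 ≤ T0 ∧
  ∀ (ι : Type) (S : Finset ι) (w f : ι → ℝ) (M U U1 p : ℝ) (N : ℕ), (∀ i ∈ S, 0 ≤ w i) →
    0 < U → U ≤ U1 → 1 ≤ p → 1 ≤ N →
    (∀ i ∈ S, T0 ≤ |f i| ∧ |f i| ≤ M ∧ U ≤ Real.log (|f i| / 2) ^ 2 / 16) →
    ∫ u in (0 : ℝ)..U, (1 - u / U1) * ZI S w f u ≤
      (∑ i ∈ S, w i) * Real.log M / 2 +
      ∑ n ∈ Ico 1 N, vonMangoldt n * (n : ℝ) ^ (-(1 / 2 : ℝ)) *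
        |∑ i ∈ S, w i * Real.cos (f i * Real.log n)| +
      (∑ i ∈ S, w i) * Real.exp (p ^ 2 / 2 + p * U + (1 - p) * Real.log N) * SS * U +
      (∑ i ∈ S, w i) * C := by
  obtain ⟨C, T0, hC, hT0, hE⟩ := LG.EFX hRH
  refine ⟨C, 2 * T0, hC, by linarith, ?_⟩
  intro ι S w f M U U1 p N hw hU hUU1 hp hN hk
  have hU1 : 0 < U1 := by linarith
  set T : ι → ℝ := fun i => 2 * |f i| / 3 with hTdef
  have hT : ∀ i ∈ S, T0 ≤ T i := by
    intro i hi
    have := (hk i hi).1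
    simp only [hTdef]
    linarith
  have hT1 : ∀ i ∈ S, 1 ≤ T i := fun i hi => by linarith [hT i hi]
  have hlt : ∀ i ∈ S, T i < |f i| := by
    intro i hi
    have := (hk i hi).1
    simp only [hTdef]
    linarith
  have hlg : ∀ i ∈ S, Real.log (T i) ≤ |f i| / 3 := by
    intro i hi
    have := (hk i hi).1
    exact GI_log _ (by linarith)
  have ha1 : ∀ i ∈ S, T i + Real.log (T i) ≤ |f i| := by
    intro i hi
    have := hlg i hi
    simp only [hTdef] at this ⊢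
    linarith
  have ha2 : ∀ i ∈ S, |f i| ≤ 2 * T i - Real.log (T i) := by
    intro i hi
    have := hlg i hi
    simp only [hTdef] at this ⊢
    linarith
  have hUL : ∀ i ∈ S, U ≤ Real.log (T i) ^ 2 / 16 := by
    intro i hi
    obtain ⟨h1, h2, h3⟩ := hk i hi
    have h4 : 0 ≤ Real.log (|f i| / 2) := Real.log_nonneg (by linarith)
    have h5 : Real.log (|f i| / 2) ≤ Real.log (T i) := by
      apply Real.log_le_log (by linarith)
      simp only [hTdef]
      linarith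
    have h6 : Real.log (|f i| / 2) ^ 2 ≤ Real.log (T i) ^ 2 := pow_le_pow_left₀ h4 h5 2
    linarith
  have hLM : ∀ i ∈ S, Real.log (T i) ≤ Real.log M := by
    intro i hi
    obtain ⟨h1, h2, h3⟩ := hk i hi
    apply Real.log_le_log
    · linarith [hT1 i hi]
    · linarith [hlt i hi]
  set K : ℝ := ∑ i ∈ S, w i with hKdef
  have hK0 : 0 ≤ K := Finset.sum_nonneg hw
  set L := Real.log M with hL
  have hKL : 0 ≤ K * L := by
    rcases S.eq_empty_or_nonempty with h | ⟨i, hi⟩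
    · rw [hKdef, h]; simp
    · have h1 := hLM i hi
      have h2 : 0 ≤ Real.log (T i) := Real.log_nonneg (hT1 i hi)
      exact mul_nonneg hK0 (h2.trans h1)
  set c0 : ℝ := 1 / Real.sqrt (2 * Real.pi) with hc0
  have hpi := Real.pi_gt_three
  have hs1 : 1 ≤ Real.sqrt (2 * Real.pi) := by
    rw [show (1 : ℝ) = Real.sqrt 1 by simp]
    exact Real.sqrt_le_sqrt (by linarith)
  have hs0 : 0 < Real.sqrt (2 * Real.pi) := by linarith
  have hc00 : 0 < c0 := by positivity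
  have hc01 : c0 ≤ 1 := by
    rw [hc0, div_le_one hs0]; exact hs1
  have hc0s : c0 * Real.sqrt (2 * Real.pi) = 1 := by
    rw [hc0]; field_simp
  set B := Real.exp (p ^ 2 / 2 + p * U + (1 - p) * Real.log N) with hB
  have hB0 : 0 < B := Real.exp_pos _
  have hSS := SS_nonneg
  set D : ℕ → ℝ := fun n => |∑ i ∈ S, w i * Real.cos (f i * Real.log n)| with hD
  have hD0 : ∀ n, 0 ≤ D n := fun n => abs_nonneg _
  -- pointwise
  have hpt : ∀ u ∈ Set.Icc (0 : ℝ) U, ZI S w f u ≤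
      c0 * (K * L * Real.exp (-u ^ 2 / 2) +
        ∑ n ∈ Ico 1 N, vonMangoldt n * (n : ℝ) ^ (-(1 / 2 : ℝ)) * D n *
        Real.exp (-(u - Real.log n) ^ 2 / 2) + K * B * SS) + K * C * Real.exp (-u) := by
    intro u hu
    have hpr := gw_prime S w f hw N hN p U u hp hu.1 hu.2
    set P : ι → ℂ := fun i => ∑' n : ℕ, (vonMangoldt n : ℂ) *
        (n : ℂ) ^ (-(1 / 2 : ℂ) - Complex.I * ((|f i| : ℝ) : ℂ)) *
        (Real.exp (-(u - Real.log n) ^ 2 / 2) : ℂ) with hP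
    have h1 : ∀ i ∈ S, w i * (Zs (T i) (|f i|) u).re ≤
        w i * (c0 * (L * Real.exp (-u ^ 2 / 2) - (P i).re) + C * Real.exp (-u)) := by
      intro i hi
      apply mul_le_mul_of_nonneg_left _ (hw i hi)
      have h2 : ‖Zs (T i) (|f i|) u -
        (c0 : ℂ) * (((Real.log (T i) * Real.exp (-u ^ 2 / 2) : ℝ) : ℂ) - P i)‖ ≤
          C * Real.exp (-u) :=
        hE (T i) (hT i hi) u (|f i|) hu.1 (hu.2.trans (hUL i hi)) (ha1 i hi) (ha2 i hi)
      have h3 := (Complex.re_le_norm _).trans h2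
      rw [Complex.sub_re, Complex.re_ofReal_mul, Complex.sub_re, Complex.ofReal_re] at h3
      have h4 : Real.log (T i) * Real.exp (-u ^ 2 / 2) ≤ L * Real.exp (-u ^ 2 / 2) :=
        mul_le_mul_of_nonneg_right (hLM i hi) (Real.exp_pos _).le
      have h5 := mul_le_mul_of_nonneg_left h4 hc00.le
      linarith
    have h2 : ZI S w f u ≤
        ∑ i ∈ S, w i * (c0 * (L * Real.exp (-u ^ 2 / 2) - (P i).re) + C * Real.exp (-u)) :=
      Finset.sum_le_sum h1
    have h3 : ∑ i ∈ S, w i * (c0 * (L * Real.exp (-u ^ 2 / 2) - (P i).re) + C * Real.exp (-u)) =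
        c0 * (K * L * Real.exp (-u ^ 2 / 2) - ∑ i ∈ S, w i * (P i).re) +
          K * C * Real.exp (-u) := by
      have e1 : ∀ i, w i * (c0 * (L * Real.exp (-u ^ 2 / 2) - (P i).re) + C * Real.exp (-u)) =
          w i * (c0 * (L * Real.exp (-u ^ 2 / 2)) + C * Real.exp (-u)) - c0 * (w i * (P i).re) := by
        intro i; ring
      simp_rw [e1]
      rw [Finset.sum_sub_distrib, ← Finset.sum_mul, ← Finset.mul_sum]
      ring
    rw [h3] at h2
    have h6 : c0 * (-(∑ i ∈ S, w i * (P i).re)) ≤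
        c0 * (∑ n ∈ Ico 1 N, vonMangoldt n * (n : ℝ) ^ (-(1 / 2 : ℝ)) * D n *
        Real.exp (-(u - Real.log n) ^ 2 / 2) + K * B * SS) :=
      mul_le_mul_of_nonneg_left ((neg_le_abs _).trans hpr) hc00.le
    linarith
  -- integrate
  have hcont : Continuous (ZI S w f) := by
    unfold ZI
    exact continuous_finsetSum S (fun i hi => continuous_const.mul
      (Zs_cont (T i) (|f i|) (hT1 i hi)))
  have hmono : ∫ u in (0 : ℝ)..U, (1 - u / U1) * ZI S w f u ≤
      ∫ u in (0 : ℝ)..U, (c0 * (K * L * Real.exp (-u ^ 2 / 2) +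
        ∑ n ∈ Ico 1 N, vonMangoldt n * (n : ℝ) ^ (-(1 / 2 : ℝ)) * D n *
        Real.exp (-(u - Real.log n) ^ 2 / 2) + K * B * SS) + K * C * Real.exp (-u)) := by
    apply intervalIntegral.integral_mono_on hU.le
    · have h8 : Continuous (fun u : ℝ => (1 - u / U1)) := by fun_prop
      exact (h8.mul hcont).intervalIntegrable _ _
    · exact Continuous.intervalIntegrable (by fun_prop) _ _
    · intro u hu
      have hw0 : 0 ≤ 1 - u / U1 := by
        rw [sub_nonneg, div_le_one hU1]; exact hu.2.trans hUU1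
      have hw1 : 1 - u / U1 ≤ 1 := by
        have : 0 ≤ u / U1 := div_nonneg hu.1 hU1.le
        linarith
      have hR0 : 0 ≤ c0 * (K * L * Real.exp (-u ^ 2 / 2) +
        ∑ n ∈ Ico 1 N, vonMangoldt n * (n : ℝ) ^ (-(1 / 2 : ℝ)) * D n *
        Real.exp (-(u - Real.log n) ^ 2 / 2) + K * B * SS) + K * C * Real.exp (-u) := by
        have h7 : 0 ≤ ∑ n ∈ Ico 1 N, vonMangoldt n * (n : ℝ) ^ (-(1 / 2 : ℝ)) * D n *
            Real.exp (-(u - Real.log n) ^ 2 / 2) :=
          Finset.sum_nonneg fun n _ => mul_nonneg (mul_nonneg (mul_nonneg vonMangoldt_nonneg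
            (by positivity)) (hD0 n)) (Real.exp_pos _).le
        have h8 : 0 ≤ K * L * Real.exp (-u ^ 2 / 2) := mul_nonneg hKL (Real.exp_pos _).le
        have h9 : 0 ≤ K * B * SS := mul_nonneg (mul_nonneg hK0 hB0.le) hSS
        have h10 : 0 ≤ K * C * Real.exp (-u) :=
          mul_nonneg (mul_nonneg hK0 hC.le) (Real.exp_pos _).le
        have h11 : 0 ≤ c0 * (K * L * Real.exp (-u ^ 2 / 2) +
          ∑ n ∈ Ico 1 N, vonMangoldt n * (n : ℝ) ^ (-(1 / 2 : ℝ)) * D n *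
          Real.exp (-(u - Real.log n) ^ 2 / 2) + K * B * SS) :=
          mul_nonneg hc00.le (by linarith)
        linarith
      calc (1 - u / U1) * ZI S w f u ≤ (1 - u / U1) * _ :=
            mul_le_mul_of_nonneg_left (hpt u hu) hw0
        _ ≤ _ := by
          refine (mul_le_mul_of_nonneg_right hw1 hR0).trans (le_of_eq (one_mul _))
  refine hmono.trans ?_
  rw [intervalIntegral.integral_add (Continuous.intervalIntegrable (by fun_prop) _ _)
    (Continuous.intervalIntegrable (by fun_prop) _ _), intervalIntegral.integral_const_mul,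
    intervalIntegral.integral_const_mul,
    intervalIntegral.integral_add (Continuous.intervalIntegrable (by fun_prop) _ _)
    (Continuous.intervalIntegrable (by fun_prop) _ _),
    intervalIntegral.integral_add (Continuous.intervalIntegrable (by fun_prop) _ _)
    (Continuous.intervalIntegrable (by fun_prop) _ _), intervalIntegral.integral_const_mul,
    intervalIntegral.integral_const,
    intervalIntegral.integral_finsetSum (fun n _ =>
      Continuous.intervalIntegrable (by fun_prop) _ _)]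
  simp only [intervalIntegral.integral_const_mul, sub_zero, smul_eq_mul]
  have g1 := gauss_half U hU.le
  have g3 := exp_int U hU.le
  have hS : ∑ n ∈ Ico 1 N, vonMangoldt n * (n : ℝ) ^ (-(1 / 2 : ℝ)) * D n *
      ∫ u in (0 : ℝ)..U, Real.exp (-(u - Real.log n) ^ 2 / 2) ≤
      (∑ n ∈ Ico 1 N, vonMangoldt n * (n : ℝ) ^ (-(1 / 2 : ℝ)) * D n) *
        Real.sqrt (2 * Real.pi) := by
    rw [Finset.sum_mul]
    refine Finset.sum_le_sum fun n _ => ?_
    apply mul_le_mul_of_nonneg_left (gauss_full U _ hU.le)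
    exact mul_nonneg (mul_nonneg vonMangoldt_nonneg (by positivity)) (hD0 n)
  set Q := ∑ n ∈ Ico 1 N, vonMangoldt n * (n : ℝ) ^ (-(1 / 2 : ℝ)) * D n with hQ
  have hKC : 0 ≤ K * C := mul_nonneg hK0 hC.le
  have t1 : K * L * ∫ u in (0 : ℝ)..U, Real.exp (-u ^ 2 / 2) ≤
      K * L * (Real.sqrt (2 * Real.pi) / 2) := mul_le_mul_of_nonneg_left g1 hKL
  have t3 : K * C * ∫ u in (0 : ℝ)..U, Real.exp (-u) ≤ K * C * 1 :=
    mul_le_mul_of_nonneg_left g3 hKC
  have t4 : c0 * (U * (K * B * SS)) ≤ 1 * (U * (K * B * SS)) :=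
    mul_le_mul_of_nonneg_right hc01
      (mul_nonneg hU.le (mul_nonneg (mul_nonneg hK0 hB0.le) hSS))
  have t5 : c0 * (K * L * (∫ u in (0 : ℝ)..U, Real.exp (-u ^ 2 / 2)) +
      (∑ n ∈ Ico 1 N, vonMangoldt n * (n : ℝ) ^ (-(1 / 2 : ℝ)) * D n *
      ∫ u in (0 : ℝ)..U, Real.exp (-(u - Real.log n) ^ 2 / 2))) ≤
      c0 * (K * L * (Real.sqrt (2 * Real.pi) / 2) + Q * Real.sqrt (2 * Real.pi)) :=
    mul_le_mul_of_nonneg_left (add_le_add t1 hS) hc00.le
  have t6 : c0 * (K * L * (Real.sqrt (2 * Real.pi) / 2) + Q * Real.sqrt (2 * Real.pi)) =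
      (K * L / 2 + Q) * (c0 * Real.sqrt (2 * Real.pi)) := by ring
  rw [t6, hc0s] at t5
  nlinarith [t5, t3, t4]

end Pool.Agent.H8.TT
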