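import Pool.Agent.H8.TT.Z3

/-! The upper bound for the pair sum of zeros against dilated zeros. -/

set_option autoImplicit false

open Finset ArithmeticFunction MeasureTheory Filter

namespace Pool.Agent.H8.TT

open H370
open Pool.Agent.H345R2.AP (SS SS_nonneg)

lemma ev_pow (a C : ℝ) (ha : a < 1) : ∀ᶠ T : ℝ in atTop, C * T ^ a * Real.log T ^ 3 ≤ T := by
  set e : ℝ := (1 - a) / 6 with he
  have he0 : 0 < e := by rw [he]; linarith
  filter_upwards [(tendsto_rpow_atTop (show 0 < 3 * e by positivity)).eventually_ge_atTop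
    (|C| / e ^ 3), eventually_ge_atTop 1] with T h1 h2
  have hT0 : 0 < T := by linarith
  have hL0 : 0 ≤ Real.log T := Real.log_nonneg h2
  have h3 := Real.log_le_rpow_div hT0.le he0
  have h4 : Real.log T ^ 3 ≤ (T ^ e / e) ^ 3 := pow_le_pow_left₀ hL0 h3 3
  have h5 : (T ^ e / e) ^ 3 = T ^ (3 * e) / e ^ 3 := by
    rw [div_pow, ← Real.rpow_natCast, ← Real.rpow_mul hT0.le]
    congr 2
    push_cast; ring
  rw [h5] at h4
  have hTa : 0 < T ^ a := Real.rpow_pos_of_pos hT0 _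
  calc C * T ^ a * Real.log T ^ 3 ≤ |C| * T ^ a * (T ^ (3 * e) / e ^ 3) := by
        have := le_abs_self C
        gcongr
    _ = T ^ a * T ^ (3 * e) * (|C| / e ^ 3) := by ring
    _ ≤ T ^ a * T ^ (3 * e) * T ^ (3 * e) := by
        gcongr
    _ = T ^ (a + 3 * e + 3 * e) := by rw [Real.rpow_add hT0, Real.rpow_add hT0]
    _ = T := by
        have : a + 3 * e + 3 * e = 1 := by rw [he]; ring
        rw [this, Real.rpow_one]

lemma cos_sum_le (A B s r v : ℝ) :
    |∑ i ∈ Zf riemannZeta A B, (mult riemannZeta i : ℝ) * Real.cos ((s * i.im + r) * v)| ≤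
      ‖Zv A B (s * v)‖ := by
  have h1 : ∑ i ∈ Zf riemannZeta A B, (mult riemannZeta i : ℝ) * Real.cos ((s * i.im + r) * v) =
      (Complex.exp (Complex.I * ((r * v : ℝ) : ℂ)) * Zv A B (s * v)).re := by
    unfold Zv
    rw [Finset.mul_sum, Complex.re_sum]
    refine Finset.sum_congr rfl fun i _ => ?_
    have h2 : Complex.exp (Complex.I * ((r * v : ℝ) : ℂ)) * ((mult riemannZeta i : ℂ) *
        Complex.exp (Complex.I * ((s * v * i.im : ℝ) : ℂ))) =
        ((mult riemannZeta i : ℝ) : ℂ) *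
          Complex.exp ((((s * i.im + r) * v : ℝ) : ℂ) * Complex.I) := by
      rw [mul_left_comm, ← Complex.exp_add]
      congr 2
      push_cast
      ring
    rw [h2, Complex.re_ofReal_mul, Complex.exp_ofReal_mul_I_re]
  rw [h1]
  refine (Complex.abs_re_le_norm _).trans ?_
  rw [norm_mul, norm_ei, one_mul]

lemma pt_term (s ε C1 H L Lb D : ℝ) (n N : ℕ) (hs : 1 < s) (hε : ε = (s - 1) / 8) (hC1 : 0 < C1)
    (hH : 0 ≤ H) (hLb0 : 0 ≤ Lb) (hLb : Lb ≤ L) (hn1 : 1 ≤ n) (hnN : n ≤ N)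
    (hD : D ≤ C1 * (Lb + H * ((s * Real.log n + 1) * Real.exp (-(s * Real.log n) / 2)) +
      Real.exp ((s * Real.log n) / 2) * (s * Real.log n + 1) ^ 2)) :
    vonMangoldt n * (n : ℝ) ^ (-(1 / 2 : ℝ)) * D ≤
        C1 * (L * (Real.log N + 1) +
          H * ((1 / ε) * (s / ε + 1) * (n : ℝ) ^ (-((3 + s) / 4))) +
          (N : ℝ) ^ ((s - 1) / 2) * (s ^ 2 * (Real.log N + 1) ^ 3)) := by
  have hε0 : 0 < ε := by rw [hε]; linarith
  have hn0 : (0 : ℝ) < n := by exact_mod_cast hn1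
  have hnr1 : (1 : ℝ) ≤ n := by exact_mod_cast hn1
  have hln0 : 0 ≤ Real.log n := Real.log_nonneg hnr1
  have hlnN : Real.log n ≤ Real.log N := Real.log_le_log hn0 (by exact_mod_cast hnN)
  set v := s * Real.log n with hv
  have hlam : vonMangoldt n ≤ Real.log n := vonMangoldt_le_log
  have hlam0 : 0 ≤ vonMangoldt n := vonMangoldt_nonneg
  have hnh1 : (n : ℝ) ^ (-(1 / 2 : ℝ)) ≤ 1 := Real.rpow_le_one_of_one_le_of_nonpos hnr1 (by norm_num)
  have hnh0 : 0 ≤ (n : ℝ) ^ (-(1 / 2 : ℝ)) := by positivity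
  have hexp1 : Real.exp (-v / 2) = (n : ℝ) ^ (-(s / 2)) := by
    rw [Real.rpow_def_of_pos hn0, hv]; congr 1; ring
  have hexp2 : Real.exp (v / 2) = (n : ℝ) ^ (s / 2) := by
    rw [Real.rpow_def_of_pos hn0, hv]; congr 1; ring
  have hv1 : v + 1 ≤ s * (Real.log N + 1) := by
    have h1 : v ≤ s * Real.log N := by rw [hv]; gcongr
    have h2 : s * (Real.log N + 1) = s * Real.log N + s := by ring
    linarith
  have hv0 : 0 ≤ v := by positivity
  -- first part
  have p1 : vonMangoldt n * (n : ℝ) ^ (-(1 / 2 : ℝ)) * Lb ≤ L * (Real.log N + 1) := by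
    have h3 : vonMangoldt n ≤ Real.log N + 1 := by linarith
    have h4 : 0 ≤ L := hLb0.trans hLb
    calc _ ≤ (Real.log N + 1) * 1 * L := by
          gcongr
      _ = _ := by ring
  -- second part
  have p2 : vonMangoldt n * (n : ℝ) ^ (-(1 / 2 : ℝ)) * (H * ((v + 1) * Real.exp (-v / 2))) ≤
      H * ((1 / ε) * (s / ε + 1) * (n : ℝ) ^ (-((3 + s) / 4))) := by
    have h1 := Real.log_le_rpow_div hn0.le hε0
    have h1' : Real.log n ≤ (1 / ε) * (n : ℝ) ^ ε := by rw [one_div, inv_mul_eq_div]; exact h1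
    have h2 : v + 1 ≤ (s / ε + 1) * (n : ℝ) ^ ε := by
      have h3 : 1 ≤ (n : ℝ) ^ ε := Real.one_le_rpow hnr1 hε0.le
      have h4 : v ≤ s * ((1 / ε) * (n : ℝ) ^ ε) := by rw [hv]; gcongr
      have h5 : s * ((1 / ε) * (n : ℝ) ^ ε) = s / ε * (n : ℝ) ^ ε := by ring
      linarith
    rw [hexp1]
    have h6 := hlam.trans h1'
    calc vonMangoldt n * (n : ℝ) ^ (-(1 / 2 : ℝ)) * (H * ((v + 1) * (n : ℝ) ^ (-(s / 2)))) ≤
        ((1 / ε) * (n : ℝ) ^ ε) * (n : ℝ) ^ (-(1 / 2 : ℝ)) *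
          (H * (((s / ε + 1) * (n : ℝ) ^ ε) * (n : ℝ) ^ (-(s / 2)))) := by
          gcongr
      _ = H * ((1 / ε) * (s / ε + 1) * ((n : ℝ) ^ ε * (n : ℝ) ^ ε * (n : ℝ) ^ (-(1 / 2 : ℝ)) *
          (n : ℝ) ^ (-(s / 2)))) := by ring
      _ = _ := by
          congr 2
          rw [← Real.rpow_add hn0, ← Real.rpow_add hn0, ← Real.rpow_add hn0]
          congr 1
          rw [hε]; ring
  -- third part
  have p3 : vonMangoldt n * (n : ℝ) ^ (-(1 / 2 : ℝ)) * (Real.exp (v / 2) * (v + 1) ^ 2) ≤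
      (N : ℝ) ^ ((s - 1) / 2) * (s ^ 2 * (Real.log N + 1) ^ 3) := by
    have h1 : (n : ℝ) ^ (-(1 / 2 : ℝ)) * Real.exp (v / 2) ≤ (N : ℝ) ^ ((s - 1) / 2) := by
      rw [hexp2, ← Real.rpow_add hn0]
      have : -(1 / 2 : ℝ) + s / 2 = (s - 1) / 2 := by ring
      rw [this]
      exact Real.rpow_le_rpow hn0.le (by exact_mod_cast hnN) (by linarith)
    have h2 : (v + 1) ^ 2 ≤ (s * (Real.log N + 1)) ^ 2 := pow_le_pow_left₀ (by linarith) hv1 2
    have h3 : vonMangoldt n ≤ Real.log N + 1 := by linarith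
    have h4 : 0 ≤ (n : ℝ) ^ (-(1 / 2 : ℝ)) * Real.exp (v / 2) := by positivity
    have h5 : 0 ≤ Real.log N + 1 := by linarith
    calc _ = (vonMangoldt n * ((n : ℝ) ^ (-(1 / 2 : ℝ)) * Real.exp (v / 2))) * (v + 1) ^ 2 := by ring
      _ ≤ ((Real.log N + 1) * ((N : ℝ) ^ ((s - 1) / 2))) * (s * (Real.log N + 1)) ^ 2 := by
          apply mul_le_mul _ h2 (by positivity) (by positivity)
          exact mul_le_mul h3 h1 h4 h5
      _ = _ := by ring
  have ha0 : 0 ≤ vonMangoldt n * (n : ℝ) ^ (-(1 / 2 : ℝ)) := mul_nonneg hlam0 hnh0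
  calc _ ≤ vonMangoldt n * (n : ℝ) ^ (-(1 / 2 : ℝ)) * (C1 * (Lb +
        H * ((v + 1) * Real.exp (-v / 2)) + Real.exp (v / 2) * (v + 1) ^ 2)) :=
        mul_le_mul_of_nonneg_left hD ha0
    _ = C1 * (vonMangoldt n * (n : ℝ) ^ (-(1 / 2 : ℝ)) * Lb +
        vonMangoldt n * (n : ℝ) ^ (-(1 / 2 : ℝ)) * (H * ((v + 1) * Real.exp (-v / 2))) +
        vonMangoldt n * (n : ℝ) ^ (-(1 / 2 : ℝ)) * (Real.exp (v / 2) * (v + 1) ^ 2)) := by ring
    _ ≤ _ := mul_le_mul_of_nonneg_left (add_le_add (add_le_add p1 p2) p3) hC1.le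

/-- the sum over `n < N` -/
lemma n_sum (s b C1 : ℝ) (hs : 1 < s) (hb0 : 0 < b) (hC1 : 0 < C1) (a : ℝ) (ha0 : 0 < a)
    (haq : a * ((s + 1) / 2) < 1) :
    ∃ C T0 : ℝ, 0 < C ∧ ∀ T : ℝ, T0 ≤ T → ∀ (H Lb : ℝ) (N : ℕ) (D : ℕ → ℝ), 0 ≤ H → H ≤ T →
      0 ≤ Lb → Lb ≤ Real.log T → 1 ≤ N → (N : ℝ) ≤ 2 * T ^ a →
      (∀ n ∈ Ico 2 N, D n ≤ C1 * (Lb +
        H * ((s * Real.log n + 1) * Real.exp (-(s * Real.log n) / 2)) +
        Real.exp ((s * Real.log n) / 2) * (s * Real.log n + 1) ^ 2)) →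
      ∑ n ∈ Ico 1 N, vonMangoldt n * (n : ℝ) ^ (-(1 / 2 : ℝ)) * D n ≤ C * T := by
  classical
  set ε : ℝ := (s - 1) / 8 with hε
  have hε0 : 0 < ε := by rw [hε]; linarith
  have ha1 : a < 1 := by nlinarith
  set Cs : ℝ := (1 / ε) * (s / ε + 1) * ∑' n : ℕ, (n : ℝ) ^ (-((3 + s) / 4)) with hCs
  have hsum : Summable (fun n : ℕ => (n : ℝ) ^ (-((3 + s) / 4))) :=
    Real.summable_nat_rpow.2 (by linarith)
  have hCs0 : 0 ≤ Cs := by
    rw [hCs]
    have : 0 ≤ ∑' n : ℕ, (n : ℝ) ^ (-((3 + s) / 4)) := tsum_nonneg fun n => by positivity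
    positivity
  have ev3 := ev_pow a (100 * 1) ha1
  have ev4 := ev_pow (a * ((s + 1) / 2)) (2 ^ ((s + 1) / 2) * (s ^ 2 * 27)) haq
  obtain ⟨T3, hT3⟩ := ((ev3.and ev4).and
    ((Real.tendsto_log_atTop.eventually_ge_atTop 100).and
    (eventually_ge_atTop 100))).exists_forall_of_atTop
  refine ⟨C1 * (2 + Cs), T3, by positivity, fun T hT H Lb N D hH0 hHT hLb0 hLb hN1 hN2 hD => ?_⟩
  obtain ⟨⟨e3, e4⟩, e5, e6⟩ := hT3 T hT
  have hTpos : 0 < T := by linarith
  set L := Real.log T with hL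
  have hN1' : (1 : ℝ) ≤ N := by exact_mod_cast hN1
  have hlogN0 : 0 ≤ Real.log N := Real.log_nonneg hN1'
  have hlogN : Real.log N ≤ a * L + 1 := by
    have h1 : Real.log N ≤ Real.log (2 * T ^ a) := Real.log_le_log (by linarith) hN2
    rw [Real.log_mul (by norm_num) (by positivity), Real.log_rpow hTpos] at h1
    have := Real.log_two_lt_d9
    linarith
  have hlogN2 : Real.log N + 1 ≤ 2 * L := by nlinarith
  have hpt : ∀ n ∈ Ico 1 N, vonMangoldt n * (n : ℝ) ^ (-(1 / 2 : ℝ)) * D n ≤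
        C1 * (L * (Real.log N + 1) +
          H * ((1 / ε) * (s / ε + 1) * (n : ℝ) ^ (-((3 + s) / 4))) +
          (N : ℝ) ^ ((s - 1) / 2) * (s ^ 2 * (Real.log N + 1) ^ 3)) := by
    intro n hn
    rw [Finset.mem_Ico] at hn
    rcases Nat.lt_or_ge n 2 with h | h
    · have : n = 1 := by omega
      subst this
      rw [vonMangoldt_apply_one, zero_mul, zero_mul]
      have hL0 : 0 ≤ L := by linarith
      positivity
    · exact pt_term s ε C1 H L Lb (D n) n N hs hε hC1 hH0 hLb0 hLb hn.1 hn.2.le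
        (hD n (by rw [Finset.mem_Ico]; exact ⟨h, hn.2⟩))
  refine (Finset.sum_le_sum hpt).trans ?_
  rw [← Finset.mul_sum, Finset.sum_add_distrib, Finset.sum_add_distrib, Finset.sum_const,
    Finset.sum_const, Nat.card_Ico, nsmul_eq_mul, nsmul_eq_mul, ← Finset.mul_sum, ← Finset.mul_sum]
  have hc1 : ((N - 1 : ℕ) : ℝ) ≤ N := by exact_mod_cast Nat.sub_le N 1
  have hTa0 : 0 < T ^ a := Real.rpow_pos_of_pos hTpos _
  have q1 : ((N - 1 : ℕ) : ℝ) * (L * (Real.log N + 1)) ≤ T := by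
    have h3 := hc1.trans hN2
    calc _ ≤ (2 * T ^ a) * (L * (2 * L)) := by
          gcongr
      _ ≤ 100 * 1 * T ^ a * L ^ 3 := by
          have h1 : (2 * T ^ a) * (L * (2 * L)) = T ^ a * (L ^ 2 * 4) := by ring
          have h2 : 100 * 1 * T ^ a * L ^ 3 = T ^ a * (L ^ 2 * (100 * L)) := by ring
          rw [h1, h2]
          gcongr
          linarith
      _ ≤ T := e3
  have q2 : H * ((1 / ε) * (s / ε + 1) * ∑ n ∈ Ico 1 N, (n : ℝ) ^ (-((3 + s) / 4))) ≤ Cs * T := by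
    have h1 : ∑ n ∈ Ico 1 N, (n : ℝ) ^ (-((3 + s) / 4)) ≤ ∑' n : ℕ, (n : ℝ) ^ (-((3 + s) / 4)) :=
      hsum.sum_le_tsum _ fun n _ => by positivity
    calc _ ≤ T * ((1 / ε) * (s / ε + 1) * ∑' n : ℕ, (n : ℝ) ^ (-((3 + s) / 4))) := by
          gcongr
      _ = _ := by rw [hCs]; ring
  have q3 : ((N - 1 : ℕ) : ℝ) * ((N : ℝ) ^ ((s - 1) / 2) * (s ^ 2 * (Real.log N + 1) ^ 3)) ≤ T := by
    have h1 : (N : ℝ) * (N : ℝ) ^ ((s - 1) / 2) = (N : ℝ) ^ ((s + 1) / 2) := by
      nth_rewrite 1 [← Real.rpow_one (N : ℝ)]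
      rw [← Real.rpow_add (by linarith)]
      congr 1; ring
    have h2 : (N : ℝ) ^ ((s + 1) / 2) ≤ 2 ^ ((s + 1) / 2) * T ^ (a * ((s + 1) / 2)) := by
      calc (N : ℝ) ^ ((s + 1) / 2) ≤ (2 * T ^ a) ^ ((s + 1) / 2) :=
            Real.rpow_le_rpow (by linarith) hN2 (by linarith)
        _ = _ := by
            rw [Real.mul_rpow (by norm_num) hTa0.le, ← Real.rpow_mul hTpos.le]
    calc _ ≤ (N : ℝ) * ((N : ℝ) ^ ((s - 1) / 2) * (s ^ 2 * (2 * L) ^ 3)) := by
          gcongr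
      _ = (N : ℝ) ^ ((s + 1) / 2) * (s ^ 2 * (8 * L ^ 3)) := by rw [← h1]; ring
      _ ≤ (2 ^ ((s + 1) / 2) * T ^ (a * ((s + 1) / 2))) * (s ^ 2 * (27 * L ^ 3)) := by
          gcongr
          norm_num
      _ = 2 ^ ((s + 1) / 2) * (s ^ 2 * 27) * T ^ (a * ((s + 1) / 2)) * L ^ 3 := by ring
      _ ≤ T := e4
  calc _ ≤ C1 * (T + Cs * T + T) := by gcongr
    _ = _ := by ring

lemma quad_aux (c L x : ℝ) (h : 1000 * c ≤ L) (hL : 0 < L) (hx : L / 2 ≤ x) :
    c * (2 * L) ≤ x ^ 2 / 16 := by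
  have h1 : (L / 2) ^ 2 ≤ x ^ 2 := pow_le_pow_left₀ (by positivity) hx 2
  nlinarith

lemma two_aux {s b L : ℝ} (hs : 1 < s) (hb : 0 < b) (h : 1000 * (1 + s) * (1 + b) ≤ L) :
    1000 * s ≤ L ∧ 1000 * b ≤ L ∧ 1000 ≤ L := by
  refine ⟨?_, ?_, ?_⟩ <;> nlinarith

theorem z4 (hRH : SP.RHs) (s r b : ℝ) (hs : 1 < s) (hb0 : 0 < b) (hb : b < 2 / (1 + s)) :
    ∃ C T0 : ℝ, 0 < C ∧ ∀ T : ℝ, T0 ≤ T → ∀ t0 H U1 : ℝ, T ≤ t0 → t0 ≤ 3 / 2 * T → 0 ≤ H →
      H ≤ T / 9 → b * Real.log T ≤ U1 →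
      ∫ u in (0 : ℝ)..(b * Real.log T), (1 - u / U1) *
        ZI (Zf riemannZeta t0 (t0 + H)) (fun i => (mult riemannZeta i : ℝ))
          (fun i => s * i.im + r) u ≤
        (NN riemannZeta t0 (t0 + H) : ℝ) * Real.log T / 2 +
          C * ((NN riemannZeta t0 (t0 + H) : ℝ) + T) := by
  classical
  obtain ⟨C0, T1, hC0, hT1, hgw⟩ := gw hRH
  obtain ⟨C1, T2, hC1, hT2, hzv⟩ := zv_bound hRH
  have hs0 : 0 < 1 + s := by linarith
  set q : ℝ := b * (1 + s) / 2 with hq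
  have hq0 : 0 < q := by positivity
  have hq1 : q < 1 := by
    rw [lt_div_iff₀ hs0] at hb
    rw [hq]; linarith
  set η : ℝ := (1 - q) / 2 with hη
  have hη0 : 0 < η := by rw [hη]; linarith
  set a : ℝ := (1 + η) * b with ha
  have ha0 : 0 < a := by positivity
  have haq : a * ((s + 1) / 2) < 1 := by
    have e : a * ((s + 1) / 2) = (1 + η) * q := by rw [ha, hq]; ring
    rw [e, hη]
    nlinarith
  have ha1 : a < 1 := by nlinarith
  set p : ℝ := (2 + η) / η with hp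
  have hp1 : 1 ≤ p := by rw [hp, le_div_iff₀ hη0]; linarith
  obtain ⟨C3, T4, hC3, h3⟩ := n_sum s b C1 hs hb0 hC1 a ha0 haq
  have hSS := SS_nonneg
  -- large T
  have ev1 : ∀ᶠ T : ℝ in atTop, Real.log T ≤ T / 20 := by
    have h1 := Real.isLittleO_log_id_atTop.bound (show (0 : ℝ) < 1 / 20 by norm_num)
    filter_upwards [h1, eventually_ge_atTop 1] with T h2 h3
    rw [Real.norm_of_nonneg (Real.log_nonneg h3), id, Real.norm_of_nonneg (by linarith)] at h2
    linarith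
  have hlogs := Real.tendsto_log_atTop
  have ev2 : ∀ᶠ T : ℝ in atTop, 1000 * (1 + s) * (1 + b) ≤ Real.log T := hlogs.eventually_ge_atTop _
  obtain ⟨T3, hT3⟩ := ((ev1.and ev2).and
    (eventually_ge_atTop (max (max (4 * T1) (2 * T2)) (10 * |r| + 100)))).exists_forall_of_atTop
  refine ⟨Real.log (2 * s) + Real.exp (p ^ 2 / 2) * SS + C0 + C3, max T3 T4, ?_,
    fun T hT t0 H U1 ht1 ht2 hH0 hH hU1 => ?_⟩
  · have h1 : 0 < Real.log (2 * s) := Real.log_pos (by linarith)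
    positivity
  obtain ⟨⟨e1, e2⟩, e5⟩ := hT3 T ((le_max_left _ _).trans hT)
  have e51 : 4 * T1 ≤ T := ((le_max_left _ _).trans (le_max_left _ _)).trans e5
  have e52 : 2 * T2 ≤ T := ((le_max_right _ _).trans (le_max_left _ _)).trans e5
  have e53 : 10 * |r| + 100 ≤ T := (le_max_right _ _).trans e5
  have hr0 := abs_nonneg r
  have hT100 : 100 ≤ T := by linarith
  have hTpos : 0 < T := by linarith
  set L := Real.log T with hL
  obtain ⟨hLs, hLb, hL1000⟩ := two_aux hs hb0 e2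
  have hL0 : 0 < L := by linarith
  set U := b * L with hU
  have hU0 : 0 < U := by positivity
  set Z := Zf riemannZeta t0 (t0 + H) with hZ
  have hA1 : 1 ≤ t0 := by linarith
  have hNN : (NN riemannZeta t0 (t0 + H) : ℝ) = ∑ i ∈ Z, (mult riemannZeta i : ℝ) := by
    rw [NN_eq good_zeta hA1]; push_cast; rfl
  set K : ℝ := ∑ i ∈ Z, (mult riemannZeta i : ℝ) with hK
  have hK0 : 0 ≤ K := Finset.sum_nonneg fun _ _ => Nat.cast_nonneg _
  rw [hNN]
  have hN0 : 0 < Real.exp ((1 + η) * U) := Real.exp_pos _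
  set N := ⌈Real.exp ((1 + η) * U)⌉₊ with hN
  have hNe : Real.exp ((1 + η) * U) ≤ N := Nat.le_ceil _
  have hNu : (N : ℝ) < Real.exp ((1 + η) * U) + 1 := Nat.ceil_lt_add_one hN0.le
  have he1 : 1 ≤ Real.exp ((1 + η) * U) := Real.one_le_exp (by positivity)
  have hN1 : 1 ≤ N := by
    have : (0 : ℝ) < N := by linarith
    exact_mod_cast this
  have hN1' : (1 : ℝ) ≤ N := by exact_mod_cast hN1
  have hNl : (1 + η) * U ≤ Real.log N := by
    rw [Real.le_log_iff_exp_le (by linarith)]; exact hNe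
  have hexpT : Real.exp ((1 + η) * U) = T ^ a := by
    rw [Real.rpow_def_of_pos hTpos, hU, ha]
    congr 1; rw [← hL]; ring
  have hN2 : (N : ℝ) ≤ 2 * T ^ a := by rw [← hexpT]; linarith
  have hlogN : Real.log N ≤ a * L + 1 := by
    have h1 : Real.log N ≤ Real.log (2 * T ^ a) := Real.log_le_log (by linarith) hN2
    rw [Real.log_mul (by norm_num) (by positivity), Real.log_rpow hTpos] at h1
    have := Real.log_two_lt_d9
    linarith
  have hlogN2 : Real.log N + 1 ≤ 2 * L := by nlinarith only [hlogN, ha1, hL1000, ha0]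
  have hlogN0 : 0 ≤ Real.log N := Real.log_nonneg hN1'
  -- range of the points
  have hrange : ∀ i ∈ Z, T / 2 ≤ s * i.im + r ∧ s * i.im + r ≤ 2 * s * T := by
    intro i hi
    rw [hZ, mem_Zf good_zeta hA1] at hi
    obtain ⟨a1, a2, a3, a4, a5⟩ := hi
    have h1 := neg_abs_le r
    have h2 := le_abs_self r
    constructor
    · have h3 : T ≤ s * i.im := by nlinarith only [a3, ht1, hs, hTpos]
      linarith only [h3, h1, e53, hT100]
    · have h3 : s * i.im ≤ s * (3 / 2 * T + T / 9) := by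
        apply mul_le_mul_of_nonneg_left _ (by linarith only [hs])
        linarith only [a4, ht2, hH]
      have h4 : T / 10 ≤ s * (T / 10) := by nlinarith only [hs, hTpos]
      linarith only [h3, h4, h2, e53, hTpos, mul_pos (show 0 < s by linarith only [hs]) hTpos]
  have hmain := hgw ℂ Z (fun i => (mult riemannZeta i : ℝ)) (fun i => s * i.im + r) (2 * s * T) U U1 p N
    (fun i _ => Nat.cast_nonneg _) hU0 hU1 hp1 hN1 (fun i hi => by
      obtain ⟨h1, h2⟩ := hrange i hi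
      rw [abs_of_pos (by linarith)]
      refine ⟨by linarith, h2, ?_⟩
      have h3 : L / 2 ≤ Real.log ((s * i.im + r) / 2) := by
        have h4 : Real.log (T / 4) ≤ Real.log ((s * i.im + r) / 2) :=
          Real.log_le_log (by positivity) (by linarith)
        rw [Real.log_div hTpos.ne' (by norm_num)] at h4
        have h5 : Real.log 4 ≤ 3 := by
          have := Real.log_le_sub_one_of_pos (show (0 : ℝ) < 4 by norm_num)
          linarith
        linarith
      have h6 := quad_aux b L _ hLb hL0 h3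
      have h7 : b * L ≤ b * (2 * L) := by
        have : 0 ≤ b * L := by positivity
        linarith
      exact h7.trans h6)
  refine hmain.trans ?_
  rw [← hK]
  -- the main term
  have m1 : K * Real.log (2 * s * T) / 2 ≤ K * L / 2 + Real.log (2 * s) * K := by
    rw [Real.log_mul (by positivity) hTpos.ne', ← hL]
    have h1 : 0 < Real.log (2 * s) := Real.log_pos (by linarith)
    nlinarith [mul_nonneg hK0 h1.le]
  -- the tail
  have m3 : K * Real.exp (p ^ 2 / 2 + p * U + (1 - p) * Real.log N) * SS * U ≤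
      Real.exp (p ^ 2 / 2) * SS * K := by
    have h1 : p ^ 2 / 2 + p * U + (1 - p) * Real.log N ≤ p ^ 2 / 2 + -U := by
      have h2 : (1 - p) * Real.log N ≤ (1 - p) * ((1 + η) * U) :=
        mul_le_mul_of_nonpos_left hNl (by linarith)
      have h3 : p * η = 2 + η := by rw [hp]; field_simp
      have h4 : (1 - p) * ((1 + η) * U) = -U - p * U := by
        have : (1 - p) * ((1 + η) * U) = (1 + η - p - p * η) * U := by ring
        rw [this, h3]; ring
      linarith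
    have h2 : Real.exp (p ^ 2 / 2 + p * U + (1 - p) * Real.log N) * U ≤ Real.exp (p ^ 2 / 2) := by
      calc _ ≤ Real.exp (p ^ 2 / 2 + -U) * U := by
            gcongr
        _ = Real.exp (p ^ 2 / 2) * (Real.exp (-U) * U) := by rw [Real.exp_add]; ring
        _ ≤ Real.exp (p ^ 2 / 2) * 1 := by
            apply mul_le_mul_of_nonneg_left _ (Real.exp_pos _).le
            have h5 := Real.add_one_le_exp U
            rw [Real.exp_neg, inv_mul_le_iff₀ (Real.exp_pos _)]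
            linarith
        _ = _ := mul_one _
    calc _ = (K * SS) * (Real.exp (p ^ 2 / 2 + p * U + (1 - p) * Real.log N) * U) := by ring
      _ ≤ (K * SS) * Real.exp (p ^ 2 / 2) := by gcongr
      _ = _ := by ring
  -- the sum over prime powers
  have m2 : ∑ n ∈ Ico 1 N, vonMangoldt n * (n : ℝ) ^ (-(1 / 2 : ℝ)) *
        |∑ i ∈ Z, (mult riemannZeta i : ℝ) * Real.cos ((s * i.im + r) * Real.log n)| ≤
      C3 * T := by
    set Tb := 9 / 10 * T with hTb
    have hTb0 : 0 < Tb := by positivity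
    have hlogb : Real.log Tb ≤ L := Real.log_le_log hTb0 (by rw [hTb]; linarith)
    have hlogb2 : L / 2 ≤ Real.log Tb := by
      have h1 : Real.log (T / 2) ≤ Real.log Tb := Real.log_le_log (by positivity) (by rw [hTb]; linarith)
      rw [Real.log_div hTpos.ne' (by norm_num)] at h1
      have := Real.log_two_lt_d9
      linarith
    have hTb20 : Real.log Tb ≤ T / 20 := hlogb.trans e1
    refine h3 T ((le_max_right _ _).trans hT) H (Real.log Tb) N _ hH0 (by linarith) (by linarith)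
      hlogb hN1 hN2 fun n hn => ?_
    rw [Finset.mem_Ico] at hn
    obtain ⟨hn1, hnN⟩ := hn
    have hn0 : (0 : ℝ) < n := by exact_mod_cast (by omega : 0 < n)
    have hn2 : (2 : ℝ) ≤ n := by exact_mod_cast hn1
    have hln2 : Real.log 2 ≤ Real.log n := Real.log_le_log (by norm_num) hn2
    have hln0 : 0 < Real.log n := Real.log_pos (by linarith)
    have hlnN : Real.log n ≤ Real.log N := Real.log_le_log hn0 (by exact_mod_cast hnN.le)
    have hv2 : Real.log 2 ≤ s * Real.log n := by nlinarith only [hln2, hln0, hs]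
    have hvL : s * Real.log n ≤ Real.log Tb ^ 2 / 16 := by
      have h2 : s * Real.log n ≤ s * (2 * L) := by
        apply mul_le_mul_of_nonneg_left _ (by linarith only [hs])
        linarith only [hlnN, hlogN2]
      exact h2.trans (quad_aux s L _ hLs hL0 hlogb2)
    have hz := hzv Tb (by rw [hTb]; linarith) t0 (t0 + H) (s * Real.log n)
      (by rw [hTb] at hTb20 ⊢; linarith) (by linarith) (by rw [hTb] at hTb20 ⊢; linarith) hv2 hvL
    have hHt : t0 + H - t0 = H := by ring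
    rw [hHt] at hz
    exact (cos_sum_le t0 (t0 + H) s r (Real.log n)).trans hz
  have h1 : 0 < Real.log (2 * s) := Real.log_pos (by linarith)
  have n1 := mul_nonneg h1.le hTpos.le
  have n2 : 0 ≤ Real.exp (p ^ 2 / 2) * SS * T := by positivity
  have n3 : 0 ≤ C0 * T := by positivity
  have n4 : 0 ≤ C3 * K := by positivity
  have efin : (Real.log (2 * s) + Real.exp (p ^ 2 / 2) * SS + C0 + C3) * (K + T) =
      (Real.log (2 * s) * K + Real.exp (p ^ 2 / 2) * SS * K + K * C0 + C3 * T) +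
      (Real.log (2 * s) * T + Real.exp (p ^ 2 / 2) * SS * T + C0 * T + C3 * K) := by
    ring
  rw [efin]
  linarith

end Pool.Agent.H8.TT
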