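import Pool.Agent.H8.TT.Z4

/-! Second moment, over the zeros, of local sums over zeros. -/

set_option autoImplicit false

open Complex Filter Topology Set MeasureTheory

namespace Pool.Agent.H8.TT

open SP H370 H370.A3
open Pool.Agent.H345R2.AP (fejer_ne fejer_zero fejer_nonneg)

theorem cube_gen (hRH : RHs) (η K0 : ℝ) (hη : 0 < η) (hη1 : η < 1) (hK00 : 0 ≤ K0) :
    ∃ C T0 : ℝ, 0 < C ∧ 10 ≤ T0 ∧ ∀ T : ℝ, T0 ≤ T → ∀ A B : ℝ, T + 4 * Real.log T ≤ A →
      B ≤ 2 * T - 4 * Real.log T → T ^ η ≤ B - A → ∀ g : ℂ → ℝ, (∀ s, 0 ≤ g s) →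
      (∀ s ∈ Zf riemannZeta A B, ∀ x : ℝ, |s.im - x| ≤ 1 / Real.log T → g s ≤ K0 * Mk T 1 x) →
      ∑ s ∈ Zf riemannZeta A B, (mult riemannZeta s : ℝ) * g s ^ 2 ≤
        C * ((B - A) * Real.log T) := by
  classical
  set k : ℕ := ⌈2 / η⌉₊ with hk
  have hk2 : 2 / η ≤ k := Nat.le_ceil _
  have hkη : 2 ≤ η * k := by
    rw [div_le_iff₀ hη] at hk2
    linarith
  have hk1 : 1 ≤ k := by
    rw [hk]
    apply Nat.one_le_ceil_iff.2
    positivity
  obtain ⟨C4, T4, hC4, hT4, h4⟩ := local4 η hη hη1 k hk1 hkη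
  obtain ⟨C1, T1, hC1, hT1, h1⟩ := Mk_bound hRH (1 / 4) (by norm_num) (by norm_num)
  obtain ⟨T2, hT2⟩ := (Real.tendsto_log_atTop.eventually_ge_atTop 1).exists_forall_of_atTop
  have hk0 : (0 : ℝ) < k := by exact_mod_cast hk1
  set K : ℝ := (K0 + (1 + (0 + 1) ^ 2) * Real.exp ((0 + 1) ^ 2 / 2)) * (C1 * k) with hK
  have hK0 : 0 < K := by positivity
  refine ⟨12 * K ^ 3 * (1 + C4), max T4 (max T1 T2), by positivity,
    hT4.trans (le_max_left _ _), fun T hT A B hA hB hAB g hg0 hg => ?_⟩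
  have hTT4 : T4 ≤ T := (le_max_left _ _).trans hT
  have hTT1 : T1 ≤ T := ((le_max_left _ _).trans (le_max_right _ _)).trans hT
  have hL1 : 1 ≤ Real.log T := hT2 T (((le_max_right _ _).trans (le_max_right _ _)).trans hT)
  have hT10 : 10 ≤ T := hT4.trans hTT4
  set L := Real.log T with hL
  have hL0 : 0 < L := by linarith
  have hinv : 1 / L ≤ 1 := by rw [div_le_one hL0]; exact hL1
  have hinv0 : 0 < 1 / L := by positivity
  have hTη : 1 ≤ T ^ η := Real.one_le_rpow (by linarith) hη.le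
  have hAB1 : 1 ≤ B - A := hTη.trans hAB
  have hA1 : 1 ≤ A := by linarith
  set G : ℝ → ℝ := fun x => 1 + ‖Q1 (1 / 4) T k x‖ with hG
  have hGc : Continuous G := continuous_const.add (LG.CTAux.Q1_cont _ T k).norm
  have hG1 : ∀ x, 0 < G x := fun x => by simp only [hG]; positivity
  -- counting by `G`
  have hcount : ∀ x : ℝ, A - 1 / L ≤ x → x ≤ B + 1 / L → ∀ S : Finset ℂ,
      (∀ s ∈ S, s ∈ Zf riemannZeta A B ∧ |s.im - x| ≤ (0 + 1) / L) →
      ∑ s ∈ S, (mult riemannZeta s : ℝ) ≤ K * G x := by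
    intro x hx1 hx2 S hS
    have h2 := near_Mk (T := T) (x := x) (r := 0 + 1) (by linarith) hL1 (by linarith) S fun s hs => by
      obtain ⟨h5, h6⟩ := hS s hs
      rw [mem_Zf good_zeta hA1] at h5
      obtain ⟨a1, a2, a3, a4, a5⟩ := h5
      exact ⟨⟨a1, a2, by linarith, by linarith, a5⟩, h6⟩
    have h3 : Mk T 1 x ≤ C1 * k * G x :=
      (LG.CTAux.Mk_mono_k T x k hk1 (by linarith)).trans
        (h1 T hTT1 x (by linarith) (by linarith) k hk1)
    have h0 : 0 ≤ K0 * (C1 * k * G x) := by have := hG1 x; positivity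
    calc _ ≤ _ := h2
      _ ≤ (1 + (0 + 1) ^ 2) * Real.exp ((0 + 1) ^ 2 / 2) * (C1 * k * G x) := by gcongr
      _ ≤ K0 * (C1 * k * G x) +
          (1 + (0 + 1) ^ 2) * Real.exp ((0 + 1) ^ 2 / 2) * (C1 * k * G x) := by linarith
      _ = K * G x := by rw [hK]; ring
  have hgG : ∀ s ∈ Zf riemannZeta A B, ∀ x : ℝ, A - 1 / L ≤ x → x ≤ B + 1 / L →
      |s.im - x| ≤ 1 / L → g s ≤ K * G x := by
    intro s hs x hx1 hx2 hsx
    have h3 : Mk T 1 x ≤ C1 * k * G x :=
      (LG.CTAux.Mk_mono_k T x k hk1 (by linarith)).trans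
        (h1 T hTT1 x (by linarith) (by linarith) k hk1)
    have h4 := hG1 x
    calc g s ≤ K0 * Mk T 1 x := hg s hs x hsx
      _ ≤ K0 * (C1 * k * G x) := by gcongr
      _ ≤ K0 * (C1 * k * G x) +
          (1 + (0 + 1) ^ 2) * Real.exp ((0 + 1) ^ 2 / 2) * (C1 * k * G x) := by
          have : 0 ≤ (1 + (0 + 1) ^ 2) * Real.exp ((0 + 1) ^ 2 / 2) * (C1 * k * G x) := by positivity
          linarith
      _ = K * G x := by rw [hK]; ring
  set V1 := A - 1 / L with hV1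
  set V2 := B + 1 / L with hV2
  have hV : V1 ≤ V2 := by linarith
  set h : ℂ → ℝ → ℝ := fun s => (Set.Icc (s.im - 1 / L) (s.im + 1 / L)).indicator
    (fun _ => (mult riemannZeta s : ℝ) * g s ^ 2) with hh
  have hhi : ∀ s, Integrable (h s) (volume.restrict (Set.Icc V1 V2)) := fun s =>
    (integrable_const _).indicator measurableSet_Icc
  have hlow : ∑ s ∈ Zf riemannZeta A B, (mult riemannZeta s : ℝ) *
        g s ^ 2 * (2 / L) =
      ∫ x in Set.Icc V1 V2, ∑ s ∈ Zf riemannZeta A B, h s x := by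
    rw [integral_finsetSum _ fun s _ => hhi s]
    refine Finset.sum_congr rfl fun s hs => ?_
    rw [mem_Zf good_zeta hA1] at hs
    obtain ⟨a1, a2, a3, a4, a5⟩ := hs
    simp only [hh]
    rw [integral_indicator measurableSet_Icc, Measure.restrict_restrict measurableSet_Icc,
      Set.inter_eq_left.2 (Set.Icc_subset_Icc (by linarith) (by linarith)), setIntegral_const,
      smul_eq_mul]
    rw [Measure.real, Real.volume_Icc, ENNReal.toReal_ofReal (by linarith)]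
    ring
  have hup : ∀ x ∈ Set.Icc V1 V2, ∑ s ∈ Zf riemannZeta A B, h s x ≤ (K * G x) ^ 3 := by
    intro x hx
    have h5 : ∀ s ∈ Zf riemannZeta A B, h s x ≤
        (if |s.im - x| ≤ 1 / L then (mult riemannZeta s : ℝ) else 0) * (K * G x) ^ 2 := by
      intro s hs
      simp only [hh]
      by_cases h6 : x ∈ Set.Icc (s.im - 1 / L) (s.im + 1 / L)
      · have h7 : |s.im - x| ≤ 1 / L := by
          rw [abs_le]; constructor
          · linarith [h6.2]
          · linarith [h6.1]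
        rw [Set.indicator_of_mem h6, if_pos h7]
        have h8 : g s ≤ K * G x := hgG s hs x hx.1 hx.2 h7
        have h9 := hg0 s
        gcongr
      · rw [Set.indicator_of_notMem h6]
        split_ifs
        · positivity
        · simp
    have h6 : ∑ s ∈ (Zf riemannZeta A B).filter (fun s => |s.im - x| ≤ 1 / L),
        (mult riemannZeta s : ℝ) ≤ K * G x := by
      apply hcount x hx.1 hx.2
      intro s hs
      rw [Finset.mem_filter] at hs
      refine ⟨hs.1, hs.2.trans ?_⟩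
      rw [zero_add]
    calc _ ≤ ∑ s ∈ Zf riemannZeta A B,
        (if |s.im - x| ≤ 1 / L then (mult riemannZeta s : ℝ) else 0) * (K * G x) ^ 2 :=
          Finset.sum_le_sum h5
      _ = (∑ s ∈ (Zf riemannZeta A B).filter (fun s => |s.im - x| ≤ 1 / L),
          (mult riemannZeta s : ℝ)) * (K * G x) ^ 2 := by
          rw [← Finset.sum_mul, Finset.sum_filter]
      _ ≤ (K * G x) * (K * G x) ^ 2 := by gcongr
      _ = _ := by ring
  have hG3 : Continuous fun x => (K * G x) ^ 3 := (continuous_const.mul hGc).pow 3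
  have hint : ∫ x in Set.Icc V1 V2, ∑ s ∈ Zf riemannZeta A B, h s x ≤
      ∫ x in V1..V2, (K * G x) ^ 3 := by
    rw [intervalIntegral.integral_of_le hV, ← integral_Icc_eq_integral_Ioc]
    refine setIntegral_mono_on (integrable_finsetSum _ fun s _ => hhi s)
      hG3.integrableOn_Icc measurableSet_Icc hup
  have hQc : Continuous fun x => ‖Q1 (1 / 4) T k x‖ ^ 4 := (LG.CTAux.Q1_cont _ T k).norm.pow 4
  have hbd : ∫ x in V1..V2, (K * G x) ^ 3 ≤ 8 * K ^ 3 * ((1 + C4) * (V2 - V1)) := by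
    calc ∫ x in V1..V2, (K * G x) ^ 3 ≤ ∫ x in V1..V2, 8 * K ^ 3 * (1 + ‖Q1 (1 / 4) T k x‖ ^ 4) := by
          refine intervalIntegral.integral_mono_on hV (hG3.intervalIntegrable _ _)
            ((continuous_const.mul (continuous_const.add hQc)).intervalIntegrable _ _) fun x _ => ?_
          have hq := norm_nonneg (Q1 (1 / 4) T k x)
          set q := ‖Q1 (1 / 4) T k x‖ with hqdef
          have h9 : (1 + q) ^ 3 ≤ 8 * (1 + q ^ 4) := by
            nlinarith [sq_nonneg (q ^ 2 - q), sq_nonneg (q - 1), sq_nonneg (q ^ 2 - 1),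
              mul_nonneg hq hq]
          show (K * (1 + q)) ^ 3 ≤ 8 * K ^ 3 * (1 + q ^ 4)
          rw [mul_pow]
          calc K ^ 3 * (1 + q) ^ 3 ≤ K ^ 3 * (8 * (1 + q ^ 4)) := by gcongr
            _ = _ := by ring
      _ = 8 * K ^ 3 * ((V2 - V1) + ∫ x in V1..V2, ‖Q1 (1 / 4) T k x‖ ^ 4) := by
          rw [intervalIntegral.integral_const_mul, intervalIntegral.integral_add
            (continuous_const.intervalIntegrable _ _) (hQc.intervalIntegrable _ _),
            intervalIntegral.integral_const, smul_eq_mul, mul_one]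
      _ ≤ 8 * K ^ 3 * ((V2 - V1) + C4 * (V2 - V1)) := by
          have := h4 T hTT4 V1 V2 hV (by linarith)
          gcongr
      _ = _ := by ring
  have hVV : V2 - V1 ≤ 3 * (B - A) := by linarith
  have hfin : (∑ s ∈ Zf riemannZeta A B, (mult riemannZeta s : ℝ) *
        g s ^ 2) * (2 / L) ≤ 8 * K ^ 3 * ((1 + C4) * (3 * (B - A))) := by
    rw [Finset.sum_mul, hlow]
    refine hint.trans (hbd.trans ?_)
    gcongr
  calc ∑ s ∈ Zf riemannZeta A B, (mult riemannZeta s : ℝ) * g s ^ 2 =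
      ((∑ s ∈ Zf riemannZeta A B, (mult riemannZeta s : ℝ) *
        g s ^ 2) * (2 / L)) * (L / 2) := by
        field_simp
    _ ≤ (8 * K ^ 3 * ((1 + C4) * (3 * (B - A)))) * (L / 2) := by gcongr
    _ = _ := by ring


/-- the Fejér kernel -/
noncomputable def FF (U y : ℝ) : ℝ := ∫ u in (0 : ℝ)..U, (1 - u / U) * Real.cos (u * y)

lemma FF_nonneg (U y : ℝ) (hU : 0 < U) : 0 ≤ FF U y := fejer_nonneg U y hU

lemma FF_half (U y : ℝ) (hU : 0 < U) : FF U y ≤ U / 2 := by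
  rw [← fejer_zero U hU]
  unfold FF
  apply intervalIntegral.integral_mono_on hU.le
  · exact Continuous.intervalIntegrable (by fun_prop) _ _
  · exact Continuous.intervalIntegrable (by fun_prop) _ _
  · intro u hu
    apply mul_le_of_le_one_right _ (Real.cos_le_one _)
    rw [sub_nonneg, div_le_one hU]; exact hu.2

lemma FF_sq (U y : ℝ) (hU : 0 < U) : FF U y * (U * y ^ 2) ≤ 2 := by
  by_cases hy : y = 0
  · rw [hy]; norm_num
  · unfold FF
    rw [fejer_ne U y hU hy, div_mul_cancel₀ _ (by positivity)]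
    have := Real.neg_one_le_cos (U * y)
    linarith

lemma FF_le (U y : ℝ) (hU : 0 < U) : FF U y * (1 + (U * y) ^ 2) ≤ 5 / 2 * U := by
  have h1 := FF_half U y hU
  have h2 := FF_sq U y hU
  have h3 : FF U y * (1 + (U * y) ^ 2) = FF U y + U * (FF U y * (U * y ^ 2)) := by ring
  rw [h3]
  nlinarith

lemma ker_le {s b1 L Lb d d' : ℝ} (hs : 1 < s) (hb : 0 < b1) (hL : 0 < L) (hLb : 1 ≤ Lb)
    (hLbL : Lb ≤ L) (hd : |d - d'| ≤ 1 / Lb) :
    FF (b1 * L) (s * d) * Real.exp (-(s * d) ^ 2 / 2) ≤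
      L * ((5 / 2 * b1 * (3 + 2 / (b1 * s) ^ 2) * Real.exp ((1 + 1 / (s ^ 2 - 1)) / 2)) *
        (Real.exp (-d' ^ 2 / 2) / (1 + (Lb * d' / 1) ^ 2))) := by
  have hU : 0 < b1 * L := by positivity
  have hs2 : 0 < s ^ 2 - 1 := by nlinarith
  have hF := FF_le (b1 * L) (s * d) hU
  have hF0 := FF_nonneg (b1 * L) (s * d) hU
  obtain ⟨h1, h2⟩ := abs_le.1 hd
  have hinv : 1 / Lb ≤ 1 := by rw [div_le_one (by linarith)]; exact hLb
  have hinv0 : 0 < 1 / Lb := by positivity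
  have hLbi : Lb * (1 / Lb) = 1 := by field_simp
  have hdd : (d' - d) ^ 2 ≤ (1 / Lb) ^ 2 := by
    have h3 : |d' - d| ≤ 1 / Lb := by rw [abs_sub_comm]; exact hd
    rw [← sq_abs]
    exact pow_le_pow_left₀ (abs_nonneg _) h3 2
  have hdd1 : (d' - d) ^ 2 ≤ 1 := hdd.trans (by nlinarith)
  -- rational part
  have hr : 1 + (Lb * d' / 1) ^ 2 ≤ (3 + 2 / (b1 * s) ^ 2) * (1 + (b1 * L * (s * d)) ^ 2) := by
    have h3 : (Lb * d') ^ 2 ≤ 2 * (L * d) ^ 2 + 2 := by
      have h4 : (Lb * d') ^ 2 ≤ 2 * (Lb * d) ^ 2 + 2 * (Lb * (d' - d)) ^ 2 := by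
        nlinarith [sq_nonneg (Lb * d - Lb * (d' - d))]
      have h5 : (Lb * (d' - d)) ^ 2 ≤ 1 := by
        have : (Lb * (d' - d)) ^ 2 = Lb ^ 2 * (d' - d) ^ 2 := by ring
        rw [this]
        calc Lb ^ 2 * (d' - d) ^ 2 ≤ Lb ^ 2 * (1 / Lb) ^ 2 := by gcongr
          _ = (Lb * (1 / Lb)) ^ 2 := by ring
          _ = 1 := by rw [hLbi]; norm_num
      have h6 : (Lb * d) ^ 2 ≤ (L * d) ^ 2 := by
        rw [mul_pow, mul_pow]
        gcongr
      linarith
    have h4 : 2 * (L * d) ^ 2 = 2 / (b1 * s) ^ 2 * (b1 * L * (s * d)) ^ 2 := by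
      field_simp
    have h5 : 0 ≤ 2 / (b1 * s) ^ 2 := by positivity
    have h6 : 0 ≤ (b1 * L * (s * d)) ^ 2 := sq_nonneg _
    rw [div_one]
    nlinarith [mul_nonneg h5 h6]
  -- Gaussian part
  have hg : Real.exp (-(s * d) ^ 2 / 2) ≤
      Real.exp ((1 + 1 / (s ^ 2 - 1)) / 2) * Real.exp (-d' ^ 2 / 2) := by
    rw [← Real.exp_add]
    apply Real.exp_le_exp.2
    have h3 : d' ^ 2 ≤ (s * d) ^ 2 + (1 + 1 / (s ^ 2 - 1)) := by
      set h := d' - d with hh
      have e : d' = d + h := by rw [hh]; ring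
      rw [e]
      have h4 : 2 * d * h ≤ (s ^ 2 - 1) * d ^ 2 + h ^ 2 / (s ^ 2 - 1) := by
        have h5 : 0 ≤ ((s ^ 2 - 1) * d - h) ^ 2 / (s ^ 2 - 1) := by positivity
        have h6 : ((s ^ 2 - 1) * d - h) ^ 2 / (s ^ 2 - 1) =
            (s ^ 2 - 1) * d ^ 2 - 2 * d * h + h ^ 2 / (s ^ 2 - 1) := by
          field_simp
          ring
        linarith
      have h7 : h ^ 2 / (s ^ 2 - 1) ≤ 1 / (s ^ 2 - 1) := by gcongr
      nlinarith
    linarith
  have hpos : 0 < 1 + (Lb * d' / 1) ^ 2 := by positivity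
  set Cr := 3 + 2 / (b1 * s) ^ 2 with hCr
  have hCr0 : 0 < Cr := by positivity
  set Ce := Real.exp ((1 + 1 / (s ^ 2 - 1)) / 2) with hCe
  have hF2 : FF (b1 * L) (s * d) * (1 + (Lb * d' / 1) ^ 2) ≤ 5 / 2 * (b1 * L) * Cr := by
    calc _ ≤ FF (b1 * L) (s * d) * (Cr * (1 + (b1 * L * (s * d)) ^ 2)) := by gcongr
      _ = Cr * (FF (b1 * L) (s * d) * (1 + (b1 * L * (s * d)) ^ 2)) := by ring
      _ ≤ Cr * (5 / 2 * (b1 * L)) := by gcongr
      _ = _ := by ring
  have e : L * ((5 / 2 * b1 * Cr * Ce) * (Real.exp (-d' ^ 2 / 2) / (1 + (Lb * d' / 1) ^ 2))) =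
      (5 / 2 * (b1 * L) * Cr * (Ce * Real.exp (-d' ^ 2 / 2))) / (1 + (Lb * d' / 1) ^ 2) := by ring
  rw [e, le_div_iff₀ hpos]
  calc FF (b1 * L) (s * d) * Real.exp (-(s * d) ^ 2 / 2) * (1 + (Lb * d' / 1) ^ 2) =
      (FF (b1 * L) (s * d) * (1 + (Lb * d' / 1) ^ 2)) * Real.exp (-(s * d) ^ 2 / 2) := by ring
    _ ≤ (5 / 2 * (b1 * L) * Cr) * (Ce * Real.exp (-d' ^ 2 / 2)) := by
        apply mul_le_mul hF2 hg (Real.exp_pos _).le (by positivity)
    _ = _ := by ring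

/-- the local sum over zeros -/
noncomputable def KS (s b1 L A B : ℝ) (ρ : ℂ) : ℝ :=
  ∑ ρ' ∈ Zf riemannZeta A B, (mult riemannZeta ρ' : ℝ) *
    (FF (b1 * L) (s * (ρ.im - ρ'.im)) * Real.exp (-(s * (ρ.im - ρ'.im)) ^ 2 / 2))

theorem z5 (hRH : RHs) (s b1 : ℝ) (hs : 1 < s) (hb : 0 < b1) :
    ∃ C T0 : ℝ, 0 < C ∧ ∀ T : ℝ, T0 ≤ T → ∀ t0 H : ℝ, T ≤ t0 → t0 ≤ 3 / 2 * T →
      T / 20 ≤ H → H ≤ T / 9 →
      ∑ ρ ∈ Zf riemannZeta t0 (t0 + H), (mult riemannZeta ρ : ℝ) *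
        KS s b1 (Real.log T) t0 (t0 + H) ρ ^ 2 ≤ C * (H * Real.log T ^ 3) := by
  classical
  have hs2 : 0 < s ^ 2 - 1 := by nlinarith
  set K0 : ℝ := 5 / 2 * b1 * (3 + 2 / (b1 * s) ^ 2) * Real.exp ((1 + 1 / (s ^ 2 - 1)) / 2) with hK0
  have hK00 : 0 < K0 := by positivity
  obtain ⟨C, T1, hC, hT1, h⟩ := cube_gen hRH (1 / 2) K0 (by norm_num) (by norm_num) hK00.le
  have ev1 : ∀ᶠ T : ℝ in atTop, Real.log T ≤ T / 100 := by
    have h1 := Real.isLittleO_log_id_atTop.bound (show (0 : ℝ) < 1 / 100 by norm_num)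
    filter_upwards [h1, eventually_ge_atTop 1] with T h2 h3
    rw [Real.norm_of_nonneg (Real.log_nonneg h3), id, Real.norm_of_nonneg (by linarith)] at h2
    linarith
  obtain ⟨T3, hT3⟩ := ((ev1.and (Real.tendsto_log_atTop.eventually_ge_atTop 10)).and
    (eventually_ge_atTop (max (2 * T1) 10000))).exists_forall_of_atTop
  refine ⟨C, T3, hC, fun T hT t0 H ht1 ht2 hH1 hH2 => ?_⟩
  obtain ⟨⟨e1, e2⟩, e3⟩ := hT3 T hT
  have e4 : 2 * T1 ≤ T := (le_max_left _ _).trans e3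
  have e5 : 10000 ≤ T := (le_max_right _ _).trans e3
  have hTpos : 0 < T := by linarith
  set L := Real.log T with hL
  have hL0 : 0 < L := by linarith
  set Tb := 9 / 10 * T with hTb
  have hTb0 : 0 < Tb := by positivity
  have hlogb : Real.log Tb ≤ L := Real.log_le_log hTb0 (by rw [hTb]; linarith)
  have hlogb2 : 1 ≤ Real.log Tb := by
    have h1 : Real.log (T / 2) ≤ Real.log Tb := Real.log_le_log (by positivity) (by rw [hTb]; linarith)
    rw [Real.log_div hTpos.ne' (by norm_num)] at h1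
    have := Real.log_two_lt_d9
    linarith
  set Lb := Real.log Tb with hLb
  have hHt : t0 + H - t0 = H := by ring
  have hA1 : 1 ≤ t0 := by linarith
  have hmain := h Tb (by rw [hTb]; linarith) t0 (t0 + H) (by rw [← hLb, hTb]; linarith)
    (by rw [← hLb, hTb]; linarith) (by
      rw [hHt]
      have h1 : Tb ^ (1 / 2 : ℝ) ≤ T ^ (1 / 2 : ℝ) :=
        Real.rpow_le_rpow hTb0.le (by rw [hTb]; linarith) (by norm_num)
      have h2 : T ^ (1 / 2 : ℝ) ≤ T / 20 := by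
        rw [← Real.sqrt_eq_rpow, Real.sqrt_le_left (by positivity)]
        nlinarith
      linarith)
    (fun ρ => KS s b1 L t0 (t0 + H) ρ / L) (fun ρ => by
      apply div_nonneg _ hL0.le
      unfold KS
      refine Finset.sum_nonneg fun ρ' _ => mul_nonneg (Nat.cast_nonneg _)
        (mul_nonneg (FF_nonneg _ _ (by positivity)) (Real.exp_pos _).le))
    (fun ρ hρ x hx => by
      rw [div_le_iff₀ hL0, LG.CTAux.Mk_eq Tb 1 x (by rw [hTb]; linarith)]
      unfold KS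
      rw [Finset.mul_sum, Finset.sum_mul]
      have hsub : Zf riemannZeta t0 (t0 + H) ⊆ (SP.Mom2.ZZ_finite Tb (by rw [hTb]; linarith)).toFinset := by
        intro z hz
        rw [mem_Zf good_zeta hA1] at hz
        obtain ⟨a1, a2, a3, a4, a5⟩ := hz
        rw [Set.Finite.mem_toFinset]
        exact ⟨a1, a2, by rw [hTb]; linarith, by rw [hTb]; linarith, a5⟩
      calc _ ≤ ∑ ρ' ∈ Zf riemannZeta t0 (t0 + H), K0 * ((mu ρ' : ℝ) *
            Real.exp (-(ρ'.im - x) ^ 2 / 2) / (1 + (Real.log Tb * (ρ'.im - x) / 1) ^ 2)) * L := by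
            refine Finset.sum_le_sum fun ρ' _ => ?_
            have h3 := ker_le (s := s) (b1 := b1) (L := L) (Lb := Lb) (d := ρ.im - ρ'.im)
              (d' := x - ρ'.im) hs hb hL0 hlogb2 hlogb (by
                have : ρ.im - ρ'.im - (x - ρ'.im) = ρ.im - x := by ring
                rw [this]; exact hx)
            have h4 := mul_le_mul_of_nonneg_left h3 (Nat.cast_nonneg (α := ℝ) (mult riemannZeta ρ'))
            refine h4.trans (le_of_eq ?_)
            have e1 : (x - ρ'.im) ^ 2 = (ρ'.im - x) ^ 2 := by ring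
            have e2 : (Lb * (x - ρ'.im) / 1) ^ 2 = (Lb * (ρ'.im - x) / 1) ^ 2 := by ring
            rw [e1, e2, ← hK0]
            unfold mu
            ring
        _ ≤ _ := by
            refine Finset.sum_le_sum_of_subset_of_nonneg hsub fun z _ _ => ?_
            positivity)
  rw [hHt] at hmain
  have h1 : ∑ ρ ∈ Zf riemannZeta t0 (t0 + H), (mult riemannZeta ρ : ℝ) *
        KS s b1 L t0 (t0 + H) ρ ^ 2 = L ^ 2 * ∑ ρ ∈ Zf riemannZeta t0 (t0 + H),
        (mult riemannZeta ρ : ℝ) * (KS s b1 L t0 (t0 + H) ρ / L) ^ 2 := by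
    rw [Finset.mul_sum]
    refine Finset.sum_congr rfl fun ρ _ => ?_
    field_simp
  rw [h1]
  have hH0 : 0 < H := by linarith
  calc _ ≤ L ^ 2 * (C * (H * Lb)) := by gcongr
    _ ≤ L ^ 2 * (C * (H * L)) := by gcongr
    _ = _ := by ring

end Pool.Agent.H8.TT
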