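import Pool.Agent.H8.TT.Z5

/-! Lower bound for the pair sum of zeros with the Fejér kernel. -/

set_option autoImplicit false

open Complex Filter Topology Set MeasureTheory

namespace Pool.Agent.H8.TT

open H370 H370.A2 H370.A3

/-- triangle function -/
noncomputable def tri (c α : ℝ) : ℝ := max 0 (1 - |α| / c)

lemma tri_nonneg (c α : ℝ) : 0 ≤ tri c α := le_max_left _ _

lemma tri_le {c : ℝ} (hc : 0 < c) (α : ℝ) : tri c α ≤ 1 := by
  unfold tri
  apply max_le zero_le_one
  have : 0 ≤ |α| / c := by positivity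
  linarith

lemma tri_eq {c α : ℝ} (hc : 0 < c) (h : |α| ≤ c) : tri c α = 1 - |α| / c := by
  unfold tri
  apply max_eq_right
  rw [sub_nonneg, div_le_one hc]; exact h

lemma tri_lip {c : ℝ} (hc : 0 < c) (x y : ℝ) : |tri c x - tri c y| ≤ 1 / c * |x - y| := by
  unfold tri
  have h1 := abs_max_sub_max_le_abs (1 - |x| / c) (1 - |y| / c) 0
  rw [max_comm 0, max_comm 0]
  refine h1.trans ?_
  have h2 : 1 - |x| / c - (1 - |y| / c) = (|y| - |x|) / c := by ring
  rw [h2, abs_div, abs_of_pos hc, div_eq_inv_mul, one_div]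
  have h3 := abs_abs_sub_abs_le_abs_sub y x
  rw [abs_sub_comm y x] at h3
  gcongr

lemma tri_cont {c : ℝ} : Continuous (tri c) := by
  unfold tri
  fun_prop

/-- the test function -/
noncomputable def tc (c a μ α : ℝ) : ℝ := tri c α * cut a μ α

lemma tc_lip {c a μ : ℝ} (hc : 0 < c) (hab : a < μ) (x y : ℝ) :
    |tc c a μ x - tc c a μ y| ≤ (1 / c + 1 / (μ - a)) * |x - y| := by
  have hba : 0 < μ - a := by linarith
  have e : tc c a μ x - tc c a μ y = (tri c x - tri c y) * cut a μ x +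
      tri c y * (cut a μ x - cut a μ y) := by
    unfold tc; ring
  rw [e]
  refine (abs_add_le _ _).trans ?_
  rw [abs_mul, abs_mul, abs_of_nonneg (cut_nonneg a μ x), abs_of_nonneg (tri_nonneg c y)]
  have h1 := tri_lip hc x y
  have h2 := cut_lip hab x y
  have h3 := cut_le a μ x
  have h4 := tri_le hc y
  have h5 := tri_nonneg c y
  have h6 := cut_nonneg a μ x
  calc |tri c x - tri c y| * cut a μ x + tri c y * |cut a μ x - cut a μ y| ≤
      (1 / c * |x - y|) * 1 + 1 * (1 / (μ - a) * |x - y|) := by gcongr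
    _ = _ := by ring

lemma tc_cont {c a μ : ℝ} (hc : 0 < c) (hab : a < μ) : Continuous (tc c a μ) := by
  have hK : 0 ≤ 1 / c + 1 / (μ - a) := by
    have : 0 < μ - a := by linarith
    positivity
  have : LipschitzWith (1 / c + 1 / (μ - a)).toNNReal (tc c a μ) := by
    refine LipschitzWith.of_dist_le_mul fun x y => ?_
    rw [Real.dist_eq, Real.dist_eq, Real.coe_toNNReal _ hK]
    exact tc_lip hc hab x y
  exact this.continuous

lemma RR_tri {s b L : ℝ} (hs : 0 < s) (hb : 0 < b) (hL : 0 < L) (d : ℝ) :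
    RR (tri (s * b)) (s * b) (d * L / (2 * Real.pi)) = 2 * (s / L) * FF (b * L) (s * d) := by
  have hc : 0 < s * b := by positivity
  have hpi := Real.pi_pos
  unfold RR FF
  have hcc : Continuous fun α : ℝ => tri (s * b) α *
      Real.cos (2 * Real.pi * α * (d * L / (2 * Real.pi))) := tri_cont.mul (by fun_prop)
  rw [int_sym (fun α : ℝ => tri (s * b) α *
      Real.cos (2 * Real.pi * α * (d * L / (2 * Real.pi)))) hcc]
  have h1 : ∀ α ∈ Set.uIcc (0 : ℝ) (s * b),
      tri (s * b) α * Real.cos (2 * Real.pi * α * (d * L / (2 * Real.pi))) +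
        tri (s * b) (-α) * Real.cos (2 * Real.pi * -α * (d * L / (2 * Real.pi))) =
      2 * ((1 - α / (s * b)) * Real.cos (α * (L * d))) := by
    intro α hα
    rw [Set.uIcc_of_le hc.le] at hα
    have h2 : |α| = α := abs_of_nonneg hα.1
    have e1 : 2 * Real.pi * α * (d * L / (2 * Real.pi)) = α * (L * d) := by field_simp
    have e2 : 2 * Real.pi * -α * (d * L / (2 * Real.pi)) = -(α * (L * d)) := by field_simp
    rw [e1, e2, Real.cos_neg, tri_eq hc (by rw [h2]; exact hα.2),
      tri_eq hc (by rw [abs_neg, h2]; exact hα.2), abs_neg, h2]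
    ring
  rw [intervalIntegral.integral_congr h1, intervalIntegral.integral_const_mul]
  have h3 := intervalIntegral.mul_integral_comp_mul_left (a := (0 : ℝ)) (b := b * L)
    (f := fun α => (1 - α / (s * b)) * Real.cos (α * (L * d))) (s / L)
  have e3 : s / L * (b * L) = s * b := by field_simp
  rw [mul_zero, e3] at h3
  rw [← h3, mul_assoc]
  congr 2
  refine intervalIntegral.integral_congr fun u _ => ?_
  show (1 - s / L * u / (s * b)) * Real.cos (s / L * u * (L * d)) = _
  have e4 : s / L * u / (s * b) = u / (b * L) := by field_simp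
  have e5 : s / L * u * (L * d) = u * (s * d) := by field_simp
  rw [e4, e5]

lemma bb_ge (hRH : RiemannHypothesis) {s b a μ A B L : ℝ} (hs : 0 < s) (hb : 0 < b) (ha : 0 < a)
    (haμ : a < μ) (hμ : μ ≤ s * b) (hA : 1 ≤ A) (hL : 0 < L) :
    ∫ α in (-μ)..μ, tc (s * b) a μ α * JN riemannZeta A B (α * L) ≤
      2 * (s / L) * ∑ ρ ∈ Zf riemannZeta A B, ∑ ρ' ∈ Zf riemannZeta A B,
        (mult riemannZeta ρ : ℝ) * (mult riemannZeta ρ' : ℝ) *
          (FF (b * L) (s * (ρ.im - ρ'.im)) * Real.exp (-(ρ.im - ρ'.im) ^ 2 / 4)) := by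
  have hc : 0 < s * b := by positivity
  have hJc : Continuous fun α : ℝ => JN riemannZeta A B (α * L) := by
    unfold JN
    exact ((JJ_cont good_zeta hA).comp (by fun_prop)).div_const _
  have h1 : ∫ α in (-μ)..μ, tc (s * b) a μ α * JN riemannZeta A B (α * L) ≤
      ∫ α in (-(s * b))..(s * b), tri (s * b) α * JN riemannZeta A B (α * L) := by
    calc _ ≤ ∫ α in (-μ)..μ, tri (s * b) α * JN riemannZeta A B (α * L) := by
          refine intervalIntegral.integral_mono_on (by linarith)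
            (((tc_cont hc haμ).mul hJc).intervalIntegrable _ _)
            ((tri_cont.mul hJc).intervalIntegrable _ _) fun α _ => ?_
          apply mul_le_mul_of_nonneg_right _ (JN_nonneg _ _ _ _)
          unfold tc
          exact mul_le_of_le_one_right (tri_nonneg _ α) (cut_le a μ α)
      _ ≤ _ := by
          refine intervalIntegral.integral_mono_interval (by linarith) (by linarith) hμ ?_
            ((tri_cont.mul hJc).intervalIntegrable _ _)
          exact Filter.Eventually.of_forall fun α =>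
            mul_nonneg (tri_nonneg _ α) (JN_nonneg _ _ _ _)
  refine h1.trans (le_of_eq ?_)
  rw [int_JN hRH hA tri_cont, Finset.mul_sum]
  refine Finset.sum_congr rfl fun ρ _ => ?_
  rw [Finset.mul_sum]
  refine Finset.sum_congr rfl fun ρ' _ => ?_
  rw [RR_tri hs hb hL]
  ring

/-- the pair sum of the dilated zeros -/
noncomputable def BB (s b L A B : ℝ) : ℝ :=
  ∑ ρ ∈ Zf riemannZeta A B, ∑ ρ' ∈ Zf riemannZeta A B,
        (mult riemannZeta ρ : ℝ) * (mult riemannZeta ρ' : ℝ) *
          (FF (b * L) (s * (ρ.im - ρ'.im)) * Real.exp (-(s * (ρ.im - ρ'.im)) ^ 2 / 2))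

lemma gauss_conv {s b L : ℝ} (hs : 1 ≤ s) (hb : 0 < b) (hL : 0 < L) (d : ℝ) :
    FF (b * L) (s * d) * Real.exp (-d ^ 2 / 4) ≤
      FF (b * L) (s * d) * Real.exp (-(s * d) ^ 2 / 2) + 4 / (b * L) * (1 / (1 + d ^ 2)) := by
  have hU : 0 < b * L := by positivity
  have hF0 := FF_nonneg (b * L) (s * d) hU
  have hF2 := FF_sq (b * L) (s * d) hU
  set F := FF (b * L) (s * d) with hF
  have h1 : Real.exp (-d ^ 2 / 4) ≤ 1 := by
    rw [Real.exp_le_one_iff]
    have := sq_nonneg d
    linarith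
  have h2 := Real.add_one_le_exp (-(s * d) ^ 2 / 2)
  have h3 := Real.exp_pos (-(s * d) ^ 2 / 2)
  have h4 : F * (s * d) ^ 2 ≤ 2 / (b * L) := by
    rw [le_div_iff₀ hU]; linarith
  have hd : d ^ 2 ≤ (s * d) ^ 2 := by
    rw [mul_pow]
    have : 1 ≤ s ^ 2 := by nlinarith
    nlinarith [sq_nonneg d]
  have key : F * (Real.exp (-d ^ 2 / 4) - Real.exp (-(s * d) ^ 2 / 2)) * (1 + d ^ 2) ≤
      4 / (b * L) := by
    have e1 : Real.exp (-d ^ 2 / 4) - Real.exp (-(s * d) ^ 2 / 2) ≤ (s * d) ^ 2 / 2 := by linarith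
    have e2 : Real.exp (-d ^ 2 / 4) - Real.exp (-(s * d) ^ 2 / 2) ≤ 1 := by linarith
    rcases le_total (d ^ 2) 1 with h | h
    · calc _ ≤ F * ((s * d) ^ 2 / 2) * (1 + d ^ 2) := by gcongr
        _ ≤ F * ((s * d) ^ 2 / 2) * 2 := by
            gcongr
            linarith
        _ = F * (s * d) ^ 2 := by ring
        _ ≤ 2 / (b * L) := h4
        _ ≤ _ := by gcongr; norm_num
    · calc _ ≤ F * 1 * (1 + d ^ 2) := by gcongr
        _ ≤ F * 1 * (2 * (s * d) ^ 2) := by
            gcongr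
            linarith
        _ = 2 * (F * (s * d) ^ 2) := by ring
        _ ≤ 2 * (2 / (b * L)) := by gcongr
        _ = _ := by ring
  have h5 : 4 / (b * L) * (1 / (1 + d ^ 2)) = (4 / (b * L)) / (1 + d ^ 2) := by ring
  rw [h5]
  have h6 : F * (Real.exp (-d ^ 2 / 4) - Real.exp (-(s * d) ^ 2 / 2)) ≤
      4 / (b * L) / (1 + d ^ 2) := by
    rw [le_div_iff₀ (by positivity)]; exact key
  linarith

lemma int_abs_tri {c a : ℝ} (hc : 0 < c) (ha : 0 ≤ a) (hac : a ≤ c) :
    ∫ α in (-a)..a, |α| * tri c α = a ^ 2 - 2 * a ^ 3 / (3 * c) := by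
  have hcc : Continuous fun α : ℝ => |α| * tri c α := continuous_abs.mul tri_cont
  rw [int_sym (fun α : ℝ => |α| * tri c α) hcc]
  have h1 : ∀ α ∈ Set.uIcc (0 : ℝ) a, |α| * tri c α + |(-α)| * tri c (-α) =
      2 * α - 2 / c * α ^ 2 := by
    intro α hα
    rw [Set.uIcc_of_le ha] at hα
    have h2 : |α| = α := abs_of_nonneg hα.1
    rw [tri_eq hc (by rw [h2]; linarith [hα.2]), tri_eq hc (by rw [abs_neg, h2]; linarith [hα.2]),
      abs_neg, h2]
    field_simp
    ring
  rw [intervalIntegral.integral_congr h1, intervalIntegral.integral_sub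
    (Continuous.intervalIntegrable (by fun_prop) _ _) (Continuous.intervalIntegrable (by fun_prop) _ _),
    intervalIntegral.integral_const_mul, intervalIntegral.integral_const_mul, integral_id,
    integral_pow]
  field_simp
  push_cast
  ring

theorem z6 (hRH : RiemannHypothesis) (s b ε : ℝ) (hs : 1 < s) (hb : 0 < b) (hsb : 1 ≤ s * b)
    (hε : 0 < ε) : ∃ C δ : ℝ, 0 < C ∧ 0 < δ ∧ ∃ T0 : ℝ, 10 ≤ T0 ∧ ∀ T : ℝ, T0 ≤ T → ∀ H : ℝ,
      T / 20 ≤ H → H ≤ T / 9 →
      volume {t : ℝ | t ∈ Set.Icc T (2 * T) ∧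
        ¬ (|(NN riemannZeta t (t + H) : ℝ) - H * Real.log T / (2 * Real.pi)| ≤
            ε * (H * Real.log T / (2 * Real.pi)) ∧
          Real.log T / (2 * s) * ((H * Real.log T / (2 * Real.pi)) *
            (2 - 2 / (3 * (s * b)) - ε)) ≤
            BB s b (Real.log T) t (t + H) + C * (NN riemannZeta t (t + H) : ℝ))} ≤
        ENNReal.ofReal (T ^ (1 - δ)) := by
  classical
  have hs0 : 0 < s := by linarith
  set c := s * b with hc
  have hc0 : 0 < c := by positivity
  set e : ℝ := min (ε / 8) (1 / 4) with he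
  have he0 : 0 < e := by rw [he]; positivity
  have he1 : e ≤ ε / 8 := min_le_left _ _
  have he2 : e ≤ 1 / 4 := min_le_right _ _
  set a : ℝ := 1 - e with ha
  set μ : ℝ := 1 - e / 2 with hμ
  set η0 : ℝ := 1 - e / 2 with hη0
  obtain ⟨Cw, hCw, hw⟩ := pair_weight good_zeta
  have haμ : a < μ := by rw [ha, hμ]; linarith
  obtain ⟨δ, hδ, T1, hT1, h⟩ := almost_psi good_zeta lamC_norm (fun s hs _ => ld_zeta s hs)
    le_rfl (bz_rh hRH) η0 μ (ε / 2) (by rw [hη0]; linarith) (by rw [hη0]; linarith)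
    (by rw [hμ]; linarith) (by rw [hμ, hη0]; linarith) (by rw [hη0]; linarith)
    (by positivity) (tc c a μ) _ (tc_lip hc0 haμ) (fun x hx => by
      unfold tc
      rw [cut_zero haμ hx, mul_zero])
  obtain ⟨T2, hT2⟩ := ((tendsto_rpow_atTop (show 0 < e / 2 by positivity)).eventually_ge_atTop
    20).exists_forall_of_atTop
  refine ⟨4 / b * Cw, δ, by positivity, hδ, max T1 T2, hT1.trans (le_max_left _ _),
    fun T hT H hH1 hH2 => (measure_mono ?_).trans (h T ((le_max_left _ _).trans hT) H ?_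
      (by
        have : 10 ≤ T := (hT1.trans (le_max_left _ _)).trans hT
        linarith))⟩
  swap
  · have h1 := hT2 T ((le_max_right _ _).trans hT)
    have hT10 : 10 ≤ T := (hT1.trans (le_max_left _ _)).trans hT
    have hTpos : 0 < T := by linarith
    have h2 : T ^ η0 * T ^ (e / 2) = T := by
      rw [← Real.rpow_add hTpos, hη0]
      have : 1 - e / 2 + e / 2 = 1 := by ring
      rw [this, Real.rpow_one]
    have h3 : 0 < T ^ η0 := Real.rpow_pos_of_pos hTpos _
    nlinarith
  have hT10 : 10 ≤ T := (hT1.trans (le_max_left _ _)).trans hT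
  have hTpos : 0 < T := by linarith
  have hL : 0 < Real.log T := Real.log_pos (by linarith)
  have hHpos : 0 < H := by linarith
  set L := Real.log T with hLdef
  set M := H * L / (2 * Real.pi) with hM
  have hM0 : 0 < M := by have := Real.pi_pos; positivity
  rintro t ⟨ht1, ht2⟩
  refine ⟨ht1, fun hcon => ht2 ?_⟩
  obtain ⟨g1, g2⟩ := hcon
  have hA1 : 1 ≤ t := by linarith [ht1.1]
  refine ⟨g1.trans (by
    have : 0 < ε * M := by positivity
    linarith), ?_⟩
  have h5 := bb_ge (A := t) (B := t + H) (s := s) (b := b) (a := a) (μ := μ) (L := L) hRH hs0 hb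
    (by rw [ha]; linarith) haμ (by rw [hμ]; linarith) hA1 hL
  rw [← hc] at h5
  have h6 := (abs_le.1 g2).1
  -- the main term
  have hmain : 2 - 2 / (3 * c) - ε / 2 ≤ tc c a μ 0 + ∫ α in (-μ)..μ, |α| * tc c a μ α := by
    have q0 : tc c a μ 0 = 1 := by
      unfold tc
      rw [tri_eq hc0 (by simp; exact hc0.le), cut_one haμ (by simp; rw [ha]; linarith)]
      simp
    have q1 : ∫ α in (-a)..a, |α| * tri c α ≤ ∫ α in (-μ)..μ, |α| * tc c a μ α := by
      have q2 : ∫ α in (-a)..a, |α| * tri c α = ∫ α in (-a)..a, |α| * tc c a μ α := by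
        refine intervalIntegral.integral_congr fun α hα => ?_
        rw [Set.uIcc_of_le (by rw [ha]; linarith)] at hα
        have q3 : |α| ≤ a := abs_le.2 ⟨hα.1, hα.2⟩
        show |α| * tri c α = |α| * tc c a μ α
        unfold tc
        rw [cut_one haμ q3, mul_one]
      rw [q2]
      refine intervalIntegral.integral_mono_interval (by linarith) (by rw [ha]; linarith) haμ.le ?_
        ((continuous_abs.mul (tc_cont hc0 haμ)).intervalIntegrable _ _)
      exact Filter.Eventually.of_forall fun α => mul_nonneg (abs_nonneg _)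
        (mul_nonneg (tri_nonneg _ α) (cut_nonneg a μ α))
    rw [int_abs_tri hc0 (by rw [ha]; linarith) (by rw [ha]; linarith)] at q1
    rw [q0]
    have q4 : 1 - 2 / (3 * c) - ε / 2 ≤ a ^ 2 - 2 * a ^ 3 / (3 * c) := by
      have q5 : 2 * a ^ 3 / (3 * c) ≤ 2 / (3 * c) := by
        apply div_le_div_of_nonneg_right _ (by positivity)
        have : a ^ 3 ≤ 1 := pow_le_one₀ (by rw [ha]; linarith) (by rw [ha]; linarith)
        linarith
      have q6 : 1 - ε / 2 ≤ a ^ 2 := by rw [ha]; nlinarith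
      linarith
    linarith
  have h7 : M * (2 - 2 / (3 * c) - ε) ≤ ∫ α in (-μ)..μ, tc c a μ α * JN riemannZeta t (t + H) (α * L) := by
    have h8 := mul_le_mul_of_nonneg_left hmain hM0.le
    have h9 : M * (2 - 2 / (3 * c) - ε / 2) = M * (2 - 2 / (3 * c) - ε) + ε / 2 * M := by ring
    linarith
  -- change of the weight
  have h10 : ∑ ρ ∈ Zf riemannZeta t (t + H), ∑ ρ' ∈ Zf riemannZeta t (t + H),
        (mult riemannZeta ρ : ℝ) * (mult riemannZeta ρ' : ℝ) *
          (FF (b * L) (s * (ρ.im - ρ'.im)) * Real.exp (-(ρ.im - ρ'.im) ^ 2 / 4)) ≤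
      BB s b L t (t + H) + 4 / (b * L) * (Cw * L * NN riemannZeta t (t + H)) := by
    have h11 := hw T hT10 t (t + H) ht1.1 (by linarith [ht1.2])
    calc _ ≤ ∑ ρ ∈ Zf riemannZeta t (t + H), ∑ ρ' ∈ Zf riemannZeta t (t + H),
        ((mult riemannZeta ρ : ℝ) * (mult riemannZeta ρ' : ℝ) *
          (FF (b * L) (s * (ρ.im - ρ'.im)) * Real.exp (-(s * (ρ.im - ρ'.im)) ^ 2 / 2)) +
          4 / (b * L) * ((mult riemannZeta ρ : ℝ) * (mult riemannZeta ρ' : ℝ) *
            (1 / (1 + (ρ.im - ρ'.im) ^ 2)))) := by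
          refine Finset.sum_le_sum fun ρ _ => Finset.sum_le_sum fun ρ' _ => ?_
          have h12 := gauss_conv (s := s) (b := b) (L := L) hs.le hb hL (ρ.im - ρ'.im)
          have h13 := mul_le_mul_of_nonneg_left h12
            (by positivity : (0 : ℝ) ≤ (mult riemannZeta ρ : ℝ) * (mult riemannZeta ρ' : ℝ))
          refine h13.trans (le_of_eq ?_)
          ring
      _ = BB s b L t (t + H) + 4 / (b * L) * ∑ ρ ∈ Zf riemannZeta t (t + H),
          ∑ ρ' ∈ Zf riemannZeta t (t + H), ((mult riemannZeta ρ : ℝ) * (mult riemannZeta ρ' : ℝ) *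
            (1 / (1 + (ρ.im - ρ'.im) ^ 2))) := by
          simp_rw [Finset.sum_add_distrib]
          unfold BB
          congr 1
          simp_rw [Finset.mul_sum]
      _ ≤ _ := by gcongr
  have h14 : M * (2 - 2 / (3 * c) - ε) ≤ 2 * (s / L) * (BB s b L t (t + H) +
      4 / (b * L) * (Cw * L * NN riemannZeta t (t + H))) := by
    refine h7.trans (h5.trans ?_)
    gcongr
  have h15 := mul_le_mul_of_nonneg_left h14 (by positivity : 0 ≤ L / (2 * s))
  have h16 : L / (2 * s) * (2 * (s / L) * (BB s b L t (t + H) +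
      4 / (b * L) * (Cw * L * NN riemannZeta t (t + H)))) =
      BB s b L t (t + H) + 4 / b * Cw * (NN riemannZeta t (t + H) : ℝ) := by
    field_simp
  rw [h16] at h15
  exact h15

end Pool.Agent.H8.TT
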