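import Pool.Agent.H8.TT.Z6

/-! Two-term relations between ordinates: one window. -/

set_option autoImplicit false

open Complex Filter Topology Set MeasureTheory

namespace Pool.Agent.H8.TT

open H370 H370.A2 H370.A3
open Pool.Agent.H345R2.AP (Zs Zs_re)

lemma zs_int (T x U : ℝ) (hT : 1 ≤ T) :
    ∫ u in (0 : ℝ)..U, (1 - u / U) * (Zs T x u).re =
      ∑ z ∈ Zf riemannZeta T (2 * T), (mult riemannZeta z : ℝ) *
        (FF U (z.im - x) * Real.exp (-(z.im - x) ^ 2 / 2)) := by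
  have h1 : ∀ u : ℝ, (1 - u / U) * (Zs T x u).re = ∑ z ∈ Zf riemannZeta T (2 * T),
      ((mult riemannZeta z : ℝ) * Real.exp (-(z.im - x) ^ 2 / 2)) *
        ((1 - u / U) * Real.cos (u * (z.im - x))) := by
    intro u
    rw [Zs_fin T x u hT, Complex.re_sum, Finset.mul_sum]
    refine Finset.sum_congr rfl fun z _ => ?_
    have h1 : (mult riemannZeta z : ℂ) * (Real.exp (-(z.im - x) ^ 2 / 2) : ℂ) =
        (((mult riemannZeta z : ℝ) * Real.exp (-(z.im - x) ^ 2 / 2) : ℝ) : ℂ) := by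
      push_cast; rfl
    rw [h1, Complex.re_ofReal_mul, mul_comm Complex.I, Complex.exp_ofReal_mul_I_re]
    ring
  simp_rw [h1]
  rw [intervalIntegral.integral_finsetSum]
  · refine Finset.sum_congr rfl fun z _ => ?_
    rw [intervalIntegral.integral_const_mul]
    unfold FF
    ring
  · intro z _
    exact Continuous.intervalIntegrable (by fun_prop) _ _

lemma m_pos {z : ℂ} (h : 0 < z.im) (h0 : riemannZeta z = 0) : 1 ≤ mult riemannZeta z :=
  H370.Loc.mult_pos' H370.good_zeta h h0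

lemma zs_low {s r T x U : ℝ} (hs : 0 < s) (hT : 1 ≤ T) (hU : 0 < U) (G : Finset ℂ)
    (hG : ∀ ρ ∈ G, ρ.re = 1 / 2 ∧ riemannZeta (1 / 2 + I * ((s * ρ.im + r : ℝ) : ℂ)) = 0 ∧
      T < s * ρ.im + r ∧ s * ρ.im + r ≤ 2 * T) :
    ∑ ρ ∈ G, FF U (s * ρ.im + r - x) * Real.exp (-(s * ρ.im + r - x) ^ 2 / 2) ≤
      ∫ u in (0 : ℝ)..U, (1 - u / U) * (Zs T x u).re := by
  classical
  rw [zs_int T x U hT]
  set φ : ℂ → ℂ := fun ρ => 1 / 2 + I * ((s * ρ.im + r : ℝ) : ℂ) with hφ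
  have him : ∀ ρ, (φ ρ).im = s * ρ.im + r := by
    intro ρ; simp [hφ]
  have hre : ∀ ρ, (φ ρ).re = 1 / 2 := by
    intro ρ; simp [hφ]
  have hinj : Set.InjOn φ G := by
    intro ρ1 h1 ρ2 h2 h
    have h3 := congrArg Complex.im h
    rw [him, him] at h3
    have h4 : ρ1.im = ρ2.im := by
      have : s * ρ1.im = s * ρ2.im := by linarith
      exact mul_left_cancel₀ hs.ne' this
    apply Complex.ext
    · rw [(hG ρ1 h1).1, (hG ρ2 h2).1]
    · exact h4
  calc ∑ ρ ∈ G, FF U (s * ρ.im + r - x) * Real.exp (-(s * ρ.im + r - x) ^ 2 / 2) =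
      ∑ z ∈ G.image φ, FF U (z.im - x) * Real.exp (-(z.im - x) ^ 2 / 2) := by
        rw [Finset.sum_image hinj]
        refine Finset.sum_congr rfl fun ρ _ => ?_
        rw [him]
    _ ≤ ∑ z ∈ G.image φ, (mult riemannZeta z : ℝ) *
        (FF U (z.im - x) * Real.exp (-(z.im - x) ^ 2 / 2)) := by
        refine Finset.sum_le_sum fun z hz => ?_
        rw [Finset.mem_image] at hz
        obtain ⟨ρ, hρ, rfl⟩ := hz
        obtain ⟨h1, h2, h3, h4⟩ := hG ρ hρ
        have h5 : 1 ≤ mult riemannZeta (φ ρ) := m_pos (by rw [him]; linarith) h2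
        have h6 : (1 : ℝ) ≤ mult riemannZeta (φ ρ) := by exact_mod_cast h5
        have h7 : 0 ≤ FF U ((φ ρ).im - x) * Real.exp (-((φ ρ).im - x) ^ 2 / 2) :=
          mul_nonneg (FF_nonneg _ _ hU) (Real.exp_pos _).le
        nlinarith
    _ ≤ _ := by
        refine Finset.sum_le_sum_of_subset_of_nonneg ?_ fun z _ _ =>
          mul_nonneg (Nat.cast_nonneg _) (mul_nonneg (FF_nonneg _ _ hU) (Real.exp_pos _).le)
        intro z hz
        rw [Finset.mem_image] at hz
        obtain ⟨ρ, hρ, rfl⟩ := hz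
        obtain ⟨h1, h2, h3, h4⟩ := hG ρ hρ
        rw [mem_Zf good_zeta hT]
        refine ⟨by rw [hre]; norm_num, by rw [hre]; norm_num, by rw [him]; exact h3,
          by rw [him]; exact h4, h2⟩

/-- the ordinates in the window which are mapped to ordinates -/
noncomputable def GG (s r A B : ℝ) : Finset ℂ := by
  classical
  exact (Zf riemannZeta A B).filter
    (fun ρ => riemannZeta (1 / 2 + I * ((s * ρ.im + r : ℝ) : ℂ)) = 0)

lemma GG_sub (s r A B : ℝ) : GG s r A B ⊆ Zf riemannZeta A B := by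
  classical
  unfold GG
  exact Finset.filter_subset _ _

lemma sab_low (hRH : RiemannHypothesis) {s r b L A B : ℝ} (hs : 0 < s) (hA : 1 ≤ A) (hb : 0 < b)
    (hL : 0 < L) (hlow : 2 ≤ s * A + r) (hup : s * B + r ≤ 4 / 3 * (s * A + r)) :
    ∑ ρ ∈ GG s r A B, KS s b L A B ρ ≤
      ∫ u in (0 : ℝ)..(b * L), (1 - u / (b * L)) *
        ZI (Zf riemannZeta A B) (fun i => (mult riemannZeta i : ℝ)) (fun i => s * i.im + r) u := by
  classical
  have hU : 0 < b * L := by positivity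
  have hx : ∀ i ∈ Zf riemannZeta A B, s * A + r < s * i.im + r ∧
      s * i.im + r ≤ s * B + r := by
    intro i hi
    rw [mem_Zf good_zeta hA] at hi
    obtain ⟨a1, a2, a3, a4, a5⟩ := hi
    constructor
    · have := mul_lt_mul_of_pos_left a3 hs
      linarith
    · have := mul_le_mul_of_nonneg_left a4 hs.le
      linarith
  have habs : ∀ i ∈ Zf riemannZeta A B, |s * i.im + r| = s * i.im + r := fun i hi =>
    abs_of_pos (by linarith [(hx i hi).1])
  have hcont : ∀ i ∈ Zf riemannZeta A B, Continuous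
      (fun u => (Zs (2 * |s * i.im + r| / 3) (|s * i.im + r|) u).re) := fun i hi =>
    Pool.Agent.H345R2.AP.Zs_cont _ _ (by rw [habs i hi]; linarith [(hx i hi).1])
  have h1 : ∫ u in (0 : ℝ)..(b * L), (1 - u / (b * L)) *
        ZI (Zf riemannZeta A B) (fun i => (mult riemannZeta i : ℝ)) (fun i => s * i.im + r) u =
      ∑ i ∈ Zf riemannZeta A B, (mult riemannZeta i : ℝ) *
        ∫ u in (0 : ℝ)..(b * L), (1 - u / (b * L)) *
          (Zs (2 * |s * i.im + r| / 3) (|s * i.im + r|) u).re := by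
    unfold ZI
    simp_rw [Finset.mul_sum]
    rw [intervalIntegral.integral_finsetSum]
    · refine Finset.sum_congr rfl fun i _ => ?_
      rw [← intervalIntegral.integral_const_mul]
      refine intervalIntegral.integral_congr fun u _ => ?_
      show (1 - u / (b * L)) * ((mult riemannZeta i : ℝ) * _) = _
      ring
    · intro i hi
      have := hcont i hi
      have h8 : Continuous (fun u : ℝ => (1 - u / (b * L))) := by fun_prop
      exact (h8.mul (continuous_const.mul this)).intervalIntegrable _ _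
  rw [h1]
  have h2 : ∑ ρ ∈ GG s r A B, KS s b L A B ρ = ∑ i ∈ Zf riemannZeta A B, (mult riemannZeta i : ℝ) *
      ∑ ρ ∈ GG s r A B, FF (b * L) (s * ρ.im + r - (s * i.im + r)) *
        Real.exp (-(s * ρ.im + r - (s * i.im + r)) ^ 2 / 2) := by
    unfold KS
    rw [Finset.sum_comm]
    refine Finset.sum_congr rfl fun i _ => ?_
    rw [Finset.mul_sum]
    refine Finset.sum_congr rfl fun ρ _ => ?_
    have : s * ρ.im + r - (s * i.im + r) = s * (ρ.im - i.im) := by ring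
    rw [this]
  rw [h2]
  refine Finset.sum_le_sum fun i hi => ?_
  apply mul_le_mul_of_nonneg_left _ (Nat.cast_nonneg _)
  rw [habs i hi]
  obtain ⟨hi1, hi2⟩ := hx i hi
  refine zs_low hs (by linarith) hU _ fun ρ hρ => ?_
  unfold GG at hρ
  rw [Finset.mem_filter] at hρ
  obtain ⟨hρ1, hρ2⟩ := hρ
  obtain ⟨h3, h4⟩ := hx ρ hρ1
  obtain ⟨g1, g2, g3, g4⟩ := on_line hRH hA hρ1
  refine ⟨?_, hρ2, by linarith, by linarith⟩
  rw [← g1]
  simp

theorem z7 (hRH : RiemannHypothesis) (s r : ℝ) (hs : 1 < s) (hs2 : 3 * s ^ 2 + 1 < 5 * s) :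
    ∃ c T0 : ℝ, 0 < c ∧ ∀ T : ℝ, T0 ≤ T → ∃ t0 H : ℝ, T ≤ t0 ∧ 0 ≤ H ∧ t0 + H ≤ 2 * T ∧
      ((GG s r t0 (t0 + H)).card : ℝ) + c * (T * Real.log T) ≤ NN riemannZeta t0 (t0 + H) := by
  classical
  have hRHs : SP.RHs := by
    intro s h1 h2 h0
    apply hRH s h0
    · rintro ⟨k, hk⟩
      have := congrArg Complex.re hk
      simp at this
      have hk0 : (0 : ℝ) ≤ k := Nat.cast_nonneg k
      linarith
    · intro h; rw [h] at h2; simp at h2
  have hs0 : 0 < s := by linarith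
  have hpi := Real.pi_pos
  -- choice of the bandwidth
  obtain ⟨b, hb0, hb1, hsb, hκ⟩ : ∃ b : ℝ, 0 < b ∧ b < 2 / (1 + s) ∧ 1 ≤ s * b ∧
      0 < 2 - 2 / (3 * (s * b)) - s := by
    set β : ℝ := 2 / (1 + s) with hβ
    have hβ0 : 0 < β := by positivity
    have e1 : ∀ᶠ x : ℝ in 𝓝[<] β, x < β := self_mem_nhdsWithin
    have e2 : ∀ᶠ x : ℝ in 𝓝[<] β, 0 < x := nhdsWithin_le_nhds (lt_mem_nhds hβ0)
    have e3 : ∀ᶠ x : ℝ in 𝓝[<] β, 1 < s * x := by
      have hc : ContinuousAt (fun x : ℝ => s * x) β := by fun_prop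
      refine nhdsWithin_le_nhds (hc.eventually (lt_mem_nhds ?_))
      show 1 < s * β
      rw [hβ, mul_div_assoc', lt_div_iff₀ (by linarith)]
      linarith
    have e4 : ∀ᶠ x : ℝ in 𝓝[<] β, 0 < 2 - 2 / (3 * (s * x)) - s := by
      have hc : ContinuousAt (fun x : ℝ => 2 - 2 / (3 * (s * x)) - s) β := by
        have : 3 * (s * β) ≠ 0 := by positivity
        fun_prop (disch := exact this)
      refine nhdsWithin_le_nhds (hc.eventually (lt_mem_nhds ?_))
      have h1 : 2 / (3 * (s * β)) = (1 + s) / (3 * s) := by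
        rw [hβ]
        field_simp
      show 0 < 2 - 2 / (3 * (s * β)) - s
      rw [h1]
      have h2 : 2 - (1 + s) / (3 * s) - s = (5 * s - 1 - 3 * s ^ 2) / (3 * s) := by
        field_simp
        ring
      rw [h2]
      apply div_pos <;> linarith
    obtain ⟨x, ((h1 : x < β) : x < β), h2, h3, h4⟩ := (e1.and (e2.and (e3.and e4))).exists
    exact ⟨x, h2, h1, h3.le, h4⟩
  set κ0 : ℝ := 2 - 2 / (3 * (s * b)) - s with hκ0
  set ε : ℝ := κ0 / (4 * s) with hε
  have hε0 : 0 < ε := by positivity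
  obtain ⟨C4, T4, hC4, h4⟩ := z4 hRHs s r b hs hb0 hb1
  obtain ⟨C5, T5, hC5, h5⟩ := z5 hRHs s b hs hb0
  obtain ⟨C6, δ, hC6, hδ, T6, hT6, h6⟩ := z6 hRH s b ε hs hb0 hsb hε0
  have ev1 : ∀ᶠ T : ℝ in atTop, 3 ≤ T ^ δ := (tendsto_rpow_atTop hδ).eventually_ge_atTop 3
  obtain ⟨T7, hT7⟩ := (ev1.and ((Real.tendsto_log_atTop.eventually_ge_atTop
    (1 + 4 * (C4 + C6) * (1 + ε) / ε + 4 * C4 * (18 * Real.pi) / ε)).and
    (eventually_ge_atTop (100 * |r| + 100)))).exists_forall_of_atTop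
  refine ⟨ε ^ 2 / (144 * Real.pi ^ 2 * C5), max (max T4 T5) (max T6 T7), by positivity,
    fun T hT => ?_⟩
  have hTT4 : T4 ≤ T := ((le_max_left _ _).trans (le_max_left _ _)).trans hT
  have hTT5 : T5 ≤ T := ((le_max_right _ _).trans (le_max_left _ _)).trans hT
  have hTT6 : T6 ≤ T := ((le_max_left _ _).trans (le_max_right _ _)).trans hT
  obtain ⟨e1, e2, e3⟩ := hT7 T (((le_max_right _ _).trans (le_max_right _ _)).trans hT)
  have hr0 := abs_nonneg r
  have hT100 : 100 ≤ T := by linarith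
  have hTpos : 0 < T := by linarith
  have hq1 : 0 < 4 * (C4 + C6) * (1 + ε) / ε := by positivity
  have hq2 : 0 < 4 * C4 * (18 * Real.pi) / ε := by positivity
  set L := Real.log T with hL
  have hL1 : 1 ≤ L := by linarith
  have hL0 : 0 < L := by linarith
  set H : ℝ := T / 9 with hH
  have hH0 : 0 < H := by positivity
  -- a good window
  obtain ⟨t0, ht1, ht2, hgood⟩ : ∃ t0 : ℝ, T ≤ t0 ∧ t0 ≤ 3 / 2 * T ∧
      (|(NN riemannZeta t0 (t0 + H) : ℝ) - H * L / (2 * Real.pi)| ≤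
            ε * (H * L / (2 * Real.pi)) ∧
          L / (2 * s) * ((H * L / (2 * Real.pi)) * (2 - 2 / (3 * (s * b)) - ε)) ≤
            BB s b L t0 (t0 + H) + C6 * (NN riemannZeta t0 (t0 + H) : ℝ)) := by
    by_contra hcon
    push Not at hcon
    have hv := h6 T hTT6 H (by rw [hH]; linarith) (by rw [hH])
    have hsub : Set.Icc T (3 / 2 * T) ⊆ {t : ℝ | t ∈ Set.Icc T (2 * T) ∧
        ¬ (|(NN riemannZeta t (t + H) : ℝ) - H * Real.log T / (2 * Real.pi)| ≤
            ε * (H * Real.log T / (2 * Real.pi)) ∧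
          Real.log T / (2 * s) * ((H * Real.log T / (2 * Real.pi)) *
            (2 - 2 / (3 * (s * b)) - ε)) ≤
            BB s b (Real.log T) t (t + H) + C6 * (NN riemannZeta t (t + H) : ℝ))} := by
      intro t ht
      refine ⟨⟨ht.1, by linarith [ht.2]⟩, fun hh => ?_⟩
      have := hcon t ht.1 ht.2 hh.1
      exact absurd hh.2 (not_le.2 this)
    have hm := (measure_mono hsub).trans hv
    rw [Real.volume_Icc] at hm
    have h7 : 0 ≤ T ^ (1 - δ) := by positivity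
    have h8 := (ENNReal.ofReal_le_ofReal_iff h7).1 hm
    have h9 : T ^ (1 - δ) * T ^ δ = T := by
      rw [← Real.rpow_add hTpos]
      have : 1 - δ + δ = 1 := by ring
      rw [this, Real.rpow_one]
    nlinarith
  obtain ⟨hN, hBB⟩ := hgood
  refine ⟨t0, H, ht1, hH0.le, by rw [hH]; linarith, ?_⟩
  have hA1 : 1 ≤ t0 := by linarith
  set Z := Zf riemannZeta t0 (t0 + H) with hZ
  set N : ℝ := (NN riemannZeta t0 (t0 + H) : ℝ) with hNdef
  have hNsum : N = ∑ i ∈ Z, (mult riemannZeta i : ℝ) := by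
    rw [hNdef, NN_eq good_zeta hA1]; push_cast; rfl
  have hN0 : 0 ≤ N := Nat.cast_nonneg _
  set M := H * L / (2 * Real.pi) with hM
  have hM0 : 0 < M := by positivity
  set G := GG s r t0 (t0 + H) with hG
  have hGZ : G ⊆ Z := GG_sub s r t0 (t0 + H)
  set g : ℝ := (G.card : ℝ) with hg
  -- upper bound
  have hup := h4 T hTT4 t0 H (b * L) ht1 ht2 hH0.le (by rw [hH]) le_rfl
  have hrr1 := neg_abs_le r
  have hrr2 := le_abs_self r
  have hst : T ≤ s * t0 := by nlinarith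
  have hlow := sab_low (A := t0) (B := t0 + H) (s := s) (r := r) (b := b) (L := L) hRH hs0 hA1 hb0 hL0
    (by linarith) (by
      have h7 : s * H ≤ s * t0 / 9 := by
        rw [hH]
        have : s * T ≤ s * t0 := mul_le_mul_of_nonneg_left ht1 hs0.le
        linarith
      have h8 : s * (t0 + H) = s * t0 + s * H := by ring
      rw [h8]
      linarith)
  rw [← hG] at hlow
  -- Cauchy–Schwarz
  have hKS0 : ∀ ρ, 0 ≤ KS s b L t0 (t0 + H) ρ := fun ρ => by
    unfold KS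
    exact Finset.sum_nonneg fun ρ' _ => mul_nonneg (Nat.cast_nonneg _)
        (mul_nonneg (FF_nonneg _ _ (by positivity)) (Real.exp_pos _).le)
  set w : ℂ → ℝ := fun ρ => (mult riemannZeta ρ : ℝ) - if ρ ∈ G then 1 else 0 with hw
  have hw0 : ∀ ρ ∈ Z, 0 ≤ w ρ := by
    intro ρ hρ
    obtain ⟨g1, g2, g3, g4⟩ := on_line hRH hA1 hρ
    have h7 : 1 ≤ mult riemannZeta ρ := m_pos (by linarith) (by rw [← g1]; exact g4)
    have h8 : (1 : ℝ) ≤ mult riemannZeta ρ := by exact_mod_cast h7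
    simp only [hw]
    split_ifs <;> linarith
  have hwm : ∀ ρ, w ρ ≤ (mult riemannZeta ρ : ℝ) := by
    intro ρ
    simp only [hw]
    split_ifs <;> linarith
  have hind : ∀ f : ℂ → ℝ, ∑ ρ ∈ Z, (if ρ ∈ G then (1 : ℝ) else 0) * f ρ = ∑ ρ ∈ G, f ρ := by
    intro f
    have h7 : ∀ ρ, (if ρ ∈ G then (1 : ℝ) else 0) * f ρ = if ρ ∈ G then f ρ else 0 := by
      intro ρ; split_ifs <;> simp
    simp_rw [h7]
    rw [← Finset.sum_filter]
    congr 1
    ext ρ
    rw [Finset.mem_filter]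
    exact ⟨fun h => h.2, fun h => ⟨hGZ h, h⟩⟩
  have hwsum : ∑ ρ ∈ Z, w ρ = N - g := by
    simp only [hw]
    rw [Finset.sum_sub_distrib, ← hNsum]
    have h7 := hind fun _ => 1
    simp only [mul_one] at h7
    rw [h7, Finset.sum_const, nsmul_eq_mul, mul_one]
  have hBBs : BB s b L t0 (t0 + H) = ∑ ρ ∈ Z, (mult riemannZeta ρ : ℝ) * KS s b L t0 (t0 + H) ρ := by
    unfold BB KS
    refine Finset.sum_congr rfl fun ρ _ => ?_
    rw [Finset.mul_sum]
    refine Finset.sum_congr rfl fun ρ' _ => ?_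
    ring
  have hdiff : BB s b L t0 (t0 + H) = ∑ ρ ∈ G, KS s b L t0 (t0 + H) ρ +
      ∑ ρ ∈ Z, w ρ * KS s b L t0 (t0 + H) ρ := by
    rw [hBBs, ← hind, ← Finset.sum_add_distrib]
    refine Finset.sum_congr rfl fun ρ _ => ?_
    simp only [hw]
    ring
  have hcs : (∑ ρ ∈ Z, w ρ * KS s b L t0 (t0 + H) ρ) ^ 2 ≤ (N - g) * (C5 * (H * L ^ 3)) := by
    have h7 : (∑ ρ ∈ Z, w ρ * KS s b L t0 (t0 + H) ρ) ^ 2 ≤
        (∑ ρ ∈ Z, w ρ) * ∑ ρ ∈ Z, w ρ * KS s b L t0 (t0 + H) ρ ^ 2 :=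
      Finset.sum_sq_le_sum_mul_sum_of_sq_le_mul Z hw0
        (fun ρ hρ => mul_nonneg (hw0 ρ hρ) (by positivity)) fun ρ _ => le_of_eq (by ring)
    have h8 : ∑ ρ ∈ Z, w ρ * KS s b L t0 (t0 + H) ρ ^ 2 ≤ C5 * (H * L ^ 3) := by
      refine le_trans (Finset.sum_le_sum fun ρ _ => ?_)
        (h5 T hTT5 t0 H ht1 ht2 (by rw [hH]; linarith) (by rw [hH]))
      exact mul_le_mul_of_nonneg_right (hwm ρ) (by positivity)
    have h9 : 0 ≤ ∑ ρ ∈ Z, w ρ := Finset.sum_nonneg hw0
    rw [hwsum] at h7 h9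
    exact h7.trans (mul_le_mul_of_nonneg_left h8 h9)
  set X := ∑ ρ ∈ Z, w ρ * KS s b L t0 (t0 + H) ρ with hX
  have hX0 : 0 ≤ X := Finset.sum_nonneg fun ρ hρ => mul_nonneg (hw0 ρ hρ) (hKS0 ρ)
  -- combine
  have hNM : N ≤ (1 + ε) * M := by
    have := (abs_le.1 hN).2
    linarith
  have hkey : ε * (L * M) / 2 ≤ X := by
    have c1 : L / (2 * s) * (M * (2 - 2 / (3 * (s * b)) - ε)) ≤
        N * L / 2 + C4 * (N + T) + X + C6 * N := by
      linarith only [hBB, hdiff, hlow, hup]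
    have c2 : 2 - 2 / (3 * (s * b)) - ε = κ0 + s - ε := by rw [hκ0]; ring
    rw [c2] at c1
    have c3 : L / (2 * s) * (M * (κ0 + s - ε)) = L * M * (κ0 / (2 * s)) + L * M / 2 -
        ε / (2 * s) * (L * M) := by
      field_simp
    have c4 : κ0 / (2 * s) = 2 * ε := by rw [hε]; field_simp; ring
    have c5 : ε / (2 * s) * (L * M) ≤ ε / 2 * (L * M) := by
      apply mul_le_mul_of_nonneg_right _ (by positivity)
      apply div_le_div_of_nonneg_left hε0.le (by norm_num)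
      linarith
    have c6 : N * L / 2 ≤ L * M / 2 + ε / 2 * (L * M) := by
      have := mul_le_mul_of_nonneg_right hNM hL0.le
      nlinarith
    have c7 : (C4 + C6) * N ≤ ε / 4 * (L * M) := by
      have d1 : 4 * (C4 + C6) * (1 + ε) / ε ≤ L := by linarith
      rw [div_le_iff₀ hε0] at d1
      calc (C4 + C6) * N ≤ (C4 + C6) * ((1 + ε) * M) := by gcongr
        _ = (4 * (C4 + C6) * (1 + ε)) * M / 4 := by ring
        _ ≤ (L * ε) * M / 4 := by gcongr
        _ = _ := by ring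
    have c8 : C4 * T ≤ ε / 4 * (L * M) := by
      have d1 : 4 * C4 * (18 * Real.pi) / ε ≤ L := by linarith
      rw [div_le_iff₀ hε0] at d1
      have d2 : T * L = 18 * Real.pi * M := by
        rw [hM, hH]
        field_simp
        ring
      have d3 : C4 * T ≤ C4 * (T * L) := by
        apply mul_le_mul_of_nonneg_left _ hC4.le
        nlinarith
      calc C4 * T ≤ C4 * (T * L) := d3
        _ = (4 * C4 * (18 * Real.pi)) * M / 4 := by rw [d2]; ring
        _ ≤ (L * ε) * M / 4 := by gcongr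
        _ = _ := by ring
    rw [c3, c4] at c1
    nlinarith only [c1, c5, c6, c7, c8]
  have hfin : (ε * (L * M) / 2) ^ 2 ≤ (N - g) * (C5 * (H * L ^ 3)) :=
    (pow_le_pow_left₀ (by positivity) hkey 2).trans hcs
  have hHL : 0 < C5 * (H * L ^ 3) := by positivity
  have e5 : (ε * (L * M) / 2) ^ 2 = (ε ^ 2 / (144 * Real.pi ^ 2 * C5) * (T * L)) *
      (C5 * (H * L ^ 3)) := by
    rw [hM, hH]
    field_simp
    ring
  rw [e5] at hfin
  have := le_of_mul_le_mul_right hfin hHL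
  linarith

end Pool.Agent.H8.TT
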