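import Pool.Agent.H8.TT.Z7
import Pool.Graph.R_seed8.H382L.GapTail0

/-! Two-term relations between ordinates: the count up to height `T`. -/

set_option autoImplicit false

open Complex Filter Topology Set MeasureTheory

namespace Pool.Agent.H8.TT

open H370

theorem z8 (hRH : RiemannHypothesis) (s r : ℝ)
    (h7 : ∃ c T0 : ℝ, 0 < c ∧ ∀ T : ℝ, T0 ≤ T → ∃ t0 H : ℝ, T ≤ t0 ∧ 0 ≤ H ∧ t0 + H ≤ 2 * T ∧
      ((GG s r t0 (t0 + H)).card : ℝ) + c * (T * Real.log T) ≤ NN riemannZeta t0 (t0 + H)) :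
    ∃ c : ℝ, 0 < c ∧ ∃ T0 : ℝ, ∀ T : ℝ, T0 ≤ T →
      ({γ : ℝ | 0 < γ ∧ γ ≤ T ∧ riemannZeta (1 / 2 + (γ : ℂ) * I) = 0 ∧
        riemannZeta (1 / 2 + ((s * γ + r : ℝ) : ℂ) * I) = 0}.ncard : ℝ) ≤
        (1 - c) * (SG.NZ T : ℝ) := by
  classical
  obtain ⟨c, T1, hc, h1⟩ := h7
  obtain ⟨C, T2, hC, hT2, hup⟩ := LG.GapAux.NZ_up
  refine ⟨c / C, by positivity, max (2 * T1) (max (2 * T2) 100), fun T hT => ?_⟩
  have hTT1 : 2 * T1 ≤ T := (le_max_left _ _).trans hT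
  have hTT2 : 2 * T2 ≤ T := ((le_max_left _ _).trans (le_max_right _ _)).trans hT
  have hT100 : 100 ≤ T := ((le_max_right _ _).trans (le_max_right _ _)).trans hT
  obtain ⟨t0, H, ht1, hH0, ht2, hg⟩ := h1 (T / 2) (by linarith)
  have hup' := hup (T / 2) (by linarith)
  have e2 : 2 * (T / 2) = T := by ring
  rw [e2] at hup' ht2
  have hA1 : 1 ≤ t0 := by linarith
  set F := (SG.ZS_finite T).toFinset with hF
  set Z := Zf riemannZeta t0 (t0 + H) with hZ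
  have hmemF : ∀ ρ, ρ ∈ F ↔ (riemannZeta ρ = 0 ∧ 0 < ρ.re ∧ ρ.re < 1 ∧ 0 < ρ.im ∧ ρ.im ≤ T) := by
    intro ρ
    rw [hF, Set.Finite.mem_toFinset]
    rfl
  have hZF : Z ⊆ F := by
    intro ρ hρ
    rw [hZ, mem_Zf good_zeta hA1] at hρ
    obtain ⟨a1, a2, a3, a4, a5⟩ := hρ
    rw [hmemF]
    exact ⟨a5, a1, a2, by linarith, by linarith⟩
  set P : ℂ → Prop := fun ρ => riemannZeta (1 / 2 + I * ((s * ρ.im + r : ℝ) : ℂ)) = 0 with hP
  have hcount : {γ : ℝ | 0 < γ ∧ γ ≤ T ∧ riemannZeta (1 / 2 + (γ : ℂ) * I) = 0 ∧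
        riemannZeta (1 / 2 + ((s * γ + r : ℝ) : ℂ) * I) = 0}.ncard ≤ (F.filter P).card := by
    rw [← Set.ncard_coe_finset]
    have hinj : Function.Injective (fun γ : ℝ => (1 / 2 + (γ : ℂ) * I)) := by
      intro a b h
      have := congrArg Complex.im h
      simpa using this
    rw [← Set.ncard_image_of_injective _ hinj]
    apply Set.ncard_le_ncard _ (Finset.finite_toSet _)
    rintro z ⟨γ, ⟨g1, g2, g3, g4⟩, rfl⟩
    rw [Finset.mem_coe, Finset.mem_filter, hmemF]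
    refine ⟨⟨g3, by norm_num, by norm_num, by simpa using g1, by simpa using g2⟩, ?_⟩
    simp only [hP]
    have : (1 / 2 + (γ : ℂ) * I).im = γ := by simp
    rw [this, mul_comm I]
    exact g4
  have hsub : F.filter P ⊆ (GG s r t0 (t0 + H)) ∪ (F \ Z) := by
    intro ρ hρ
    rw [Finset.mem_filter] at hρ
    rw [Finset.mem_union, Finset.mem_sdiff]
    by_cases h : ρ ∈ Z
    · left
      unfold GG
      rw [Finset.mem_filter]
      exact ⟨h, hρ.2⟩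
    · right
      exact ⟨hρ.1, h⟩
  have hcard : (F.filter P).card ≤ (GG s r t0 (t0 + H)).card + ∑ ρ ∈ F \ Z, SG.zmult ρ := by
    refine (Finset.card_le_card hsub).trans ((Finset.card_union_le _ _).trans ?_)
    apply Nat.add_le_add_left
    rw [Finset.card_eq_sum_ones]
    refine Finset.sum_le_sum fun ρ hρ => ?_
    rw [Finset.mem_sdiff, hmemF] at hρ
    exact SG.zmult_pos hρ.1.2.2.2.1 hρ.1.1
  have hNZ : SG.NZ T = ∑ ρ ∈ F \ Z, SG.zmult ρ + ∑ ρ ∈ Z, mult riemannZeta ρ := by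
    rw [SG.NZ_eq]
    rw [← Finset.sum_sdiff hZF]
    rfl
  have hNN : NN riemannZeta t0 (t0 + H) = ∑ ρ ∈ Z, mult riemannZeta ρ := NN_eq good_zeta hA1
  have k1 : ({γ : ℝ | 0 < γ ∧ γ ≤ T ∧ riemannZeta (1 / 2 + (γ : ℂ) * I) = 0 ∧
        riemannZeta (1 / 2 + ((s * γ + r : ℝ) : ℂ) * I) = 0}.ncard : ℝ) +
        (NN riemannZeta t0 (t0 + H) : ℝ) ≤ ((GG s r t0 (t0 + H)).card : ℝ) + (SG.NZ T : ℝ) := by
    have : {γ : ℝ | 0 < γ ∧ γ ≤ T ∧ riemannZeta (1 / 2 + (γ : ℂ) * I) = 0 ∧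
        riemannZeta (1 / 2 + ((s * γ + r : ℝ) : ℂ) * I) = 0}.ncard +
        NN riemannZeta t0 (t0 + H) ≤ (GG s r t0 (t0 + H)).card + SG.NZ T := by
      rw [hNZ, hNN]
      omega
    exact_mod_cast this
  have k2 : c / C * (SG.NZ T : ℝ) ≤ c * (T / 2 * Real.log (T / 2)) := by
    rw [div_mul_eq_mul_div, div_le_iff₀ hC]
    calc c * (SG.NZ T : ℝ) ≤ c * (C * (T / 2 * Real.log (T / 2))) := by gcongr
      _ = _ := by ring
  have : (1 - c / C) * (SG.NZ T : ℝ) = (SG.NZ T : ℝ) - c / C * (SG.NZ T : ℝ) := by ring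
  rw [this]
  linarith

end Pool.Agent.H8.TT
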